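import Pool.Agent.H23.DF.Defs

/-!
# Moments of Hecke L-functions, friable conductors: targets at a fixed position
-/

set_option autoImplicit false

open NumberField NumberField.InfinitePlace NumberField.Units
  NumberField.Units.dirichletUnitTheorem MeasureTheory Set Filter Complex
open scoped nonZeroDivisors ENNReal

namespace Pool.Agent.H23.DF

open Pool.Agent.H25.HK Pool.Agent.H23.LB Pool.Agent.H23.LC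
open Pool.Agent.H28.RC (Rep ft idl)
open Pool.Agent.H29.DW (dg Rl lf wv Pos Wg cpar Ci om zs rv Wt PrG IsCon)
open Pool.Agent.H29.TC (Gn LC cq dvs AC MC)
open Pool.Agent.H31.SW (EE itg FF HD DB DS dif Pf GG G2 DD PP pF dK pz ps Tf WG)
open Pool.Agent.H31.SX (ND RK Gcd LK)
open Pool.Agent.H27.TM (Sh S4 lo Maj G3 kp El Cr Am mf Dl mc Ep Cls Spc bt th1)
open Pool.Agent.H23.DM (lg5 h5 Fq Mz cm SQ MP OQ de SpE SpG FP PhZ PY LoC Lab QB Clq)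

/-! ### Lattice points -/

/-- (LN) the lattices. -/
def F_LN : Prop :=
  ∀ (K : Type) [Field K] [NumberField K] (H F : Ideal (𝓞 K)), H ≠ ⊥ → F ≠ ⊥ →
    Mz K F ≠ 0 ∧ Nh H F ≠ 0 ∧
    (∀ y : InfinitePlace K → ℝ, DD (Mz K F) y =
      Real.exp (-(∑ v, (v.mult : ℝ) * y v) / 2) * (Nf K F / 2 ^ Module.finrank ℚ K)) ∧
    (∀ y : InfinitePlace K → ℝ, DD (Nh H F) y =
      Real.exp (-(∑ v, (v.mult : ℝ) * y v) / 2) *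
        (2 ^ Module.finrank ℚ K * dK K * (Nf K H / Nf K F))) ∧
    (∀ (j : Ideal (𝓞 K)) (M : FI K) (y : InfinitePlace K → ℝ), j ≠ ⊥ → M ≠ 0 →
      (j : FI K) * M ≠ 0 ∧ DD ((j : FI K) * M) y = DD M y / Nf K j) ∧
    ∀ (l : Ideal (𝓞 K)) (M : FI K) (δ ξ : K), l ≠ ⊥ → M ≠ 0 →
      2 * δ ∈ ((l * F : Ideal (𝓞 K)) : FI K) * M →
      ξ ∈ du K (((l * H : Ideal (𝓞 K)) : FI K) * M) → δ * ξ ∈ Nh H F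

/-- (DV) the divisor bound. -/
def F_DV : Prop :=
  ∀ n : ℕ, 0 < n → ∀ ε : ℝ, 0 < ε → ∃ C : ℝ, 1 ≤ C ∧ ∀ (K : Type) [Field K] [NumberField K],
    Module.finrank ℚ K = n → ∀ (l H F : Ideal (𝓞 K)) (M : FI K) (y : InfinitePlace K → ℝ)
    (ω : InfinitePlace K → ℂ) (α : InfinitePlace K → ℝ) (A : Set K), l ≠ ⊥ → H ≠ ⊥ → F ≠ ⊥ →
    M ≠ 0 → Pos ω → (∀ v, 0 < α v) →
    (∀ δ ∈ A, 2 * δ ∈ ((l * F : Ideal (𝓞 K)) : FI K) * M ∧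
      ∀ v, α v ≤ ‖wv v δ y ω‖ ∧ ‖wv v δ y ω‖ < 2 * α v) →
    A.Finite ∧ ∀ ν : K, 0 ≤ de A (du K (((l * H : Ideal (𝓞 K)) : FI K) * M)) ν ∧
      de A (du K (((l * H : Ideal (𝓞 K)) : FI K) * M)) ν ≤
        C * (DD M y / (Nf K l * Nf K F) * PP α) ∧
      (ν ∈ Nh H F → ν ≠ 0 →
        de A (du K (((l * H : Ideal (𝓞 K)) : FI K) * M)) ν ≤
          C * (dK K * Nf K H * ∏ v : InfinitePlace K, ‖v.embedding ν‖ ^ v.mult) ^ ε)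

/-! ### Spaced frequencies -/

open scoped Classical in
/-- (SM) sums over spaced frequencies. -/
def F_SM : Prop :=
  ∀ n : ℕ, 0 < n → ∃ C : ℝ, 1 ≤ C ∧ ∀ (K : Type) [Field K] [NumberField K],
    Module.finrank ℚ K = n → ∀ (l s k κ b κ₃ b₃ e k' se s' : Ideal (𝓞 K)) (Y : ℝ) (ι : Type)
    (I : Finset ι) (γ : ι → 𝓞 K) (c : ι → InfinitePlace K → ℂ) (G α : InfinitePlace K → ℝ)
    (D : ℝ), SK l s k Y → Cn s k κ b κ₃ b₃ Y → k = e * k' → s = se * s' → e ≤ κ ⊔ k →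
    se ≤ κ ⊔ s → (∀ j ∈ I, ∀ v, Rl (rv v) (c j v)) →
    (∀ v, 0 < α v ∧ 0 < G v ∧ α v * G v ≤ 1) → (∀ i ∈ I, ∀ j ∈ I, γ i - γ j ∈ b₃) →
    SpG I b γ c G D → ∀ i ∈ I,
    ∑ j ∈ I, ww k.radical k' (s' ⊔ κ₃) γ i j *
      ∏ v : InfinitePlace K, th1 α (c i) (c j) v ^ (-(4 : ℝ)) ≤
        C * (D * ((dvs K s).card * Nf K k.radical * (Nf K e * Nf K se / Nf K κ))) /
          (PP α * PP G)

/-! ### The reduction to the dual sums -/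

/-- (MQ) the mean square over the frequencies in a box and a coset. -/
def F_MQ : Prop :=
  ∀ (n : ℕ) (p q : Bool → ℂ → ℂ) (Φ : Bool → ℝ → ℂ → ℝ) (Ψ : Bool → ℂ → ℂ) (C₀ : ℝ), 0 < n →
    Pf p → Pf q → (∀ (r : Bool) (c w : ℂ), GG (p r) c w = ∫ u in Sh, GG (q r) (c + u) w) →
    0 < C₀ → Maj Φ Ψ C₀ → ∃ C : ℝ, 0 ≤ C ∧ ∀ (K : Type) [Field K] [NumberField K],
    Module.finrank ℚ K = n → ∀ (l k r κ : Ideal (𝓞 K)) (M : FI K) (x₀ : K)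
    (y : InfinitePlace K → ℝ) (ω : InfinitePlace K → ℂ) (ρ : K) (ι : Type) (J : Finset ι)
    (η : ι → 𝓞 K ⧸ k → ℂ) (η₀ : 𝓞 K ⧸ k → ℂ) (c : ι → InfinitePlace K → ℂ)
    (c₀ : InfinitePlace K → ℂ) (G : InfinitePlace K → ℝ) (D : ℝ), FP l k M x₀ → Pos ω →
    k ≤ κ → κ ≤ r → (∀ v, 1 ≤ G v) → ρ ∈ M → MC η₀ →
    (∀ j ∈ J, MC (η j) ∧ ∀ t ∈ κ, η j (Ideal.Quotient.mk k (1 + t)) =
      η₀ (Ideal.Quotient.mk k (1 + t))) →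
    (∀ v, Rl (rv v) (c₀ v)) → (∀ j ∈ J, ∀ v, Rl (rv v) (c j v) ∧ ‖c j v - c₀ v‖ ≤ 2 * G v) →
    SpE J η c D →
    ∑ j ∈ J, ‖SQ p (((l * r : Ideal (𝓞 K)) : FI K) * M) y ω ρ (cq k (η j) M x₀)
      (c j)‖ ^ 2 ≤ C * (D * (Nf K κ * PP G) *
        ‖MP q Ψ (((l * r : Ideal (𝓞 K)) : FI K) * M) ((κ : FI K) * M) y ω ρ
          (cq k η₀ M x₀) G c₀‖)

/-- (DY) the dyadic decomposition. -/
def F_DY : Prop :=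
  ∀ (n : ℕ) (q Ψ : Bool → ℂ → ℂ), 0 < n → Pf q → Pf Ψ → ∃ C : ℝ, 0 ≤ C ∧ ∀ (K : Type) [Field K]
    [NumberField K], Module.finrank ℚ K = n → ∀ (l r κ : Ideal (𝓞 K)) (M : FI K)
    (y : InfinitePlace K → ℝ) (ω : InfinitePlace K → ℂ) (ρ : K) (G : InfinitePlace K → ℝ),
    l ≠ ⊥ → κ ≠ ⊥ → l ⊔ κ = ⊤ → M ≠ 0 → Pos ω → κ ≤ r → (∀ v, 1 ≤ G v) →
    ρ ∈ M → ∃ A : Finset (InfinitePlace K → ℝ),
    (A.card : ℝ) ≤ C * (1 + Real.log (1 + DD M y / Nf K l)) ^ n ∧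
    (∀ α ∈ A, ∀ v, 0 < α v ∧ α v ≤ 1 / 10000 ∧ G v * α v ≤ 1 / 10000) ∧
    ∀ (qq : K → ℂ) (c : InfinitePlace K → ℂ), (∀ x ∈ M, ‖qq x‖ ≤ 1) →
      ‖MP q Ψ (((l * r : Ideal (𝓞 K)) : FI K) * M) ((κ : FI K) * M) y ω ρ qq G c‖ ≤
        C * (1 + DD M y / Nf K l) + ∑ α ∈ A,
          ‖OQ q Ψ (Dl (((l * κ : Ideal (𝓞 K)) : FI K) * M) y ω α)
            (((l * r : Ideal (𝓞 K)) : FI K) * M) y ω ρ qq G c‖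

open scoped Classical in
/-- (SO) the sums over the differences after the removal of the divisors. -/
def F_SO : Prop :=
  ∀ (q Ψ : Bool → ℂ → ℂ), Pf q → Pf Ψ → ∀ (K : Type) [Field K] [NumberField K]
    (l r se : Ideal (𝓞 K)) (M : FI K) (y : InfinitePlace K → ℝ) (ω : InfinitePlace K → ℂ)
    (ρ : K) (G : InfinitePlace K → ℝ) (c : InfinitePlace K → ℂ) (A : Set K)
    (ρg : Ideal (𝓞 K) → K) (μ : Ideal (𝓞 K) → ℂ) (a : K → ℂ) (ag' : Ideal (𝓞 K) → K → ℂ),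
    l ≠ ⊥ → l ≤ Ideal.span {(2 : 𝓞 K)} → r ≠ ⊥ → se ≠ ⊥ → l * r ⊔ se = ⊤ →
    Ideal.span {(2 : 𝓞 K)} ⊔ se = ⊤ → M ≠ 0 → Pos ω → ρ ∈ M → A.Finite →
    (∀ δ ∈ A, 2 * δ ∈ ((l * se : Ideal (𝓞 K)) : FI K) * M) →
    (∀ g f : Ideal (𝓞 K), se = g * f → ρg g ∈ (g : FI K) * M ∧ ‖μ g‖ ≤ 1) →
    (∀ δ ∈ A, ∀ u ∈ M, cm l r M ρ δ a u =
      ∑ g ∈ dvs K se, μ g * (if u ∈ (g : FI K) * M then
        cm l r ((g : FI K) * M) (ρg g) δ (ag' g) u else 0)) →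
    ‖OQ q Ψ A (((l * r : Ideal (𝓞 K)) : FI K) * M) y ω ρ a G c‖ ≤
      ∑ g ∈ dvs K se, ‖OQ q Ψ A (((l * r : Ideal (𝓞 K)) : FI K) * ((g : FI K) * M)) y ω
        (ρg g) (ag' g) G c‖

/-- (PA) Poisson summation and the separation of the variables. -/
def F_PA : Prop :=
  ∀ (n : ℕ) (q Ψ : Bool → ℂ → ℂ) (N : ℕ), 0 < n → Pf q → Pf Ψ → n + 5 ≤ N →
    ∃ C₁ : ℝ, 0 ≤ C₁ ∧ ∀ (K : Type) [Field K] [NumberField K],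
    Module.finrank ℚ K = n → ∀ (l r H F : Ideal (𝓞 K)) (M : FI K) (y : InfinitePlace K → ℝ)
    (ω : InfinitePlace K → ℂ) (ρ : K) (G α : InfinitePlace K → ℝ) (A : Set K) (ι : Type)
    (I : Finset ι) (qq E : ι → K → ℂ) (W D : ℝ), l ≠ ⊥ → l ≤ Ideal.span {(2 : 𝓞 K)} →
    r ≠ ⊥ → H ≠ ⊥ → F ≠ ⊥ → M ≠ 0 →
    Pos ω → ρ ∈ M → (∀ v, 1 ≤ G v ∧ 0 < α v ∧ α v ≤ 1 / 10000 ∧ G v * α v ≤ 1 / 10000) →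
    FT l r H F M ρ A I qq E W → (∀ i ∈ I, ∀ ν ∈ Nh H F, ‖E i ν‖ ≤ D) →
    (∀ δ ∈ A, ∀ v, α v ≤ ‖wv v δ y ω‖ ∧ ‖wv v δ y ω‖ < 2 * α v) →
    ∃ (Q : (InfinitePlace K → ℂ) → InfinitePlace K → ℂ → ℂ)
      (bb : (InfinitePlace K → ℂ) → K → ℂ), (∀ s v, Am N C₁ (rv v) (Q s v)) ∧
    (∀ s ν, ‖bb s ν‖ ≤ de A (du K (((l * H : Ideal (𝓞 K)) : FI K) * M)) ν) ∧
    ∀ i ∈ I, ∀ c : InfinitePlace K → ℂ, (∀ v, Rl (rv v) (c v)) →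
    IntegrableOn (fun s => ∑' ν : {ν : K // ν ∈ Nh H F},
      bb s ν * (E i ν * Ep α (Q s) c ν)) (Set.pi univ fun _ => S4) ∧
    OQ q Ψ A (((l * r : Ideal (𝓞 K)) : FI K) * M) y ω ρ (qq i) G c =
      ((DD M y / (Nf K l * Nf K H * Real.sqrt (dK K)) * W : ℝ) : ℂ) *
      ∫ s in Set.pi univ fun _ => S4, ∑' ν : {ν : K // ν ∈ Nh H F},
        bb s ν * (E i ν * Ep α (Q s) c ν)

/-- (P1) Poisson summation. -/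
def F_P1 : Prop :=
  ∀ (n : ℕ) (q Ψ : Bool → ℂ → ℂ) (N : ℕ), 0 < n → Pf q → Pf Ψ → n + 5 ≤ N →
    ∃ C₁ C : ℝ, 0 ≤ C₁ ∧ 0 ≤ C ∧ ∀ (K : Type) [Field K] [NumberField K],
    Module.finrank ℚ K = n → ∀ (l r H F : Ideal (𝓞 K)) (M : FI K) (y : InfinitePlace K → ℝ)
    (ω : InfinitePlace K → ℂ) (ρ : K) (G α : InfinitePlace K → ℝ) (A : Set K) (ι : Type)
    (I : Finset ι) (qq E : ι → K → ℂ) (c : ι → InfinitePlace K → ℂ) (W D B : ℝ), l ≠ ⊥ →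
    l ≤ Ideal.span {(2 : 𝓞 K)} → r ≠ ⊥ → H ≠ ⊥ → F ≠ ⊥ → M ≠ 0 → Pos ω → ρ ∈ M → 0 ≤ W →
    (∀ v, 1 ≤ G v ∧ 0 < α v ∧ α v ≤ 1 / 10000 ∧ G v * α v ≤ 1 / 10000) →
    FT l r H F M ρ A I qq E W → (∀ i ∈ I, ∀ ν ∈ Nh H F, ‖E i ν‖ ≤ D) →
    (∀ δ ∈ A, ∀ v, α v ≤ ‖wv v δ y ω‖ ∧ ‖wv v δ y ω‖ < 2 * α v) →
    (∀ i ∈ I, ∀ v, Rl (rv v) (c i v)) →
    (∀ (Q : InfinitePlace K → ℂ → ℂ) (bb : K → ℂ), (∀ v, Am N C₁ (rv v) (Q v)) →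
      (∀ ν, ‖bb ν‖ ≤ de A (du K (((l * H : Ideal (𝓞 K)) : FI K) * M)) ν) →
      ∑ i ∈ I, ‖∑' ν : {ν : K // ν ∈ Nh H F}, bb ν * (E i ν * Ep α Q (c i) ν)‖ ≤ B) →
    ∑ i ∈ I, ‖OQ q Ψ A (((l * r : Ideal (𝓞 K)) : FI K) * M) y ω ρ (qq i) G (c i)‖ ≤
      C * (DD M y / Nf K l * (W / Nf K H * B))

/-! ### The dual sums -/

/-- (PS) the sums over the dual lattice. -/
def F_PS : Prop :=
  ∀ (n N : ℕ) (C₁ : ℝ), 0 < n → n + 5 ≤ N → 0 ≤ C₁ → ∃ C : ℝ, 0 ≤ C ∧ ∀ (K : Type) [Field K]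
    [NumberField K], Module.finrank ℚ K = n → ∀ (H F : Ideal (𝓞 K)) (e₁ e₂ cc : K → ℂ)
    (w X D : ℝ) (α τ : InfinitePlace K → ℝ) (c c' : InfinitePlace K → ℂ)
    (Q : InfinitePlace K → ℂ → ℂ), H ≠ ⊥ → F ≠ ⊥ → Co H F e₁ e₂ cc w X → 0 ≤ X →
    (∀ ν ∈ Nh H F, ‖e₁ ν‖ ≤ D ∧ ‖e₂ ν‖ ≤ D) →
    (∀ v, 0 < α v ∧ α v ≤ 1 / 10000) → Cls τ c → Cls τ c' →
    (∀ v, Am (N + 3) C₁ (rv v) (Q v)) →
    ‖∑' ν : {ν : K // ν ∈ Nh H F}, e₁ ν * Ep α Q c ν *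
      (starRingEnd ℂ) (e₂ ν * Ep α Q c' ν)‖ ≤
      C * (Real.sqrt (dK K) * (Nf K H / Nf K F) *
        (w * (PP α * ∏ v : InfinitePlace K, th1 α c c' v ^ (-(N : ℝ))) +
        X * (PP (th1 α c c') ^ (1 / 2 : ℝ) / PP (bt α τ))))

/-- (P2) the dual sums. -/
def F_P2 : Prop :=
  ∀ (n : ℕ) (ε : ℝ), 0 < n → 0 < ε → ∃ N : ℕ, n + 5 ≤ N ∧ ∀ C₁ : ℝ, 0 ≤ C₁ → ∃ C : ℝ, 0 ≤ C ∧
    ∀ (K : Type) [Field K] [NumberField K], Module.finrank ℚ K = n →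
    ∀ (l H F : Ideal (𝓞 K)) (M : FI K) (y : InfinitePlace K → ℝ)
    (ω : InfinitePlace K → ℂ) (G α τ : InfinitePlace K → ℝ) (A : Set K) (ι : Type)
    (I : Finset ι) (c : ι → InfinitePlace K → ℂ) (E : ι → K → ℂ) (w : ι → ι → ℝ)
    (D₁ D₃ Z X T₀ : ℝ) (Q : InfinitePlace K → ℂ → ℂ) (bb : K → ℂ), l ≠ ⊥ → H ≠ ⊥ → F ≠ ⊥ →
    M ≠ 0 → Pos ω → CO H F I E w D₁ Z X → 1 ≤ D₁ → 0 ≤ Z → 0 ≤ X →
    (∀ δ ∈ A, 2 * δ ∈ ((l * F : Ideal (𝓞 K)) : FI K) * M ∧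
      ∀ v, α v ≤ ‖wv v δ y ω‖ ∧ ‖wv v δ y ω‖ < 2 * α v) →
    (∀ v, 1 ≤ G v ∧ 0 < α v ∧ α v ≤ 1 / 10000 ∧ G v * α v ≤ 1 / 10000 ∧ G v ^ 3 ≤ τ v) →
    (∀ i ∈ I, Cls τ (c i)) →
    (∀ i ∈ I, ∀ j ∈ I, 0 ≤ w i j ∧ ∀ v, ‖c i v - c j v‖ ≤ 2 * G v ^ 3) →
    (∀ i ∈ I, ∑ j ∈ I, w i j * ∏ v : InfinitePlace K, th1 α (c i) (c j) v ^ (-(4 : ℝ)) ≤
      D₃ / (PP α * PP G)) →
    1 ≤ T₀ → Nf K H * PP τ ≤ T₀ ^ 2 → (∀ v, Am N C₁ (rv v) (Q v)) →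
    (∀ ν, ‖bb ν‖ ≤ de A (du K (((l * H : Ideal (𝓞 K)) : FI K) * M)) ν) →
    ∑ i ∈ I, ‖∑' ν : {ν : K // ν ∈ Nh H F}, bb ν * (E i ν * Ep α Q (c i) ν)‖ ≤
      C * (D₁ * dK K ^ 2 * T₀ ^ ε * (
        (I.card : ℝ) ^ (1 / 2 : ℝ) * (Nf K H / Nf K F * ((D₃ * PP τ) ^ (1 / 2 : ℝ) *
          PP G ^ (-(3 / 2) : ℝ))) +
        I.card * (Nf K H / Nf K F * X ^ (1 / 2 : ℝ)) +
        I.card * (DD M y / Nf K l * (Z ^ (1 / 2 : ℝ) / (Nf K F * PP τ) + 1 / T₀ ^ 2))))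

/-- (OC) the sums over the differences of a given class. -/
def F_OC : Prop :=
  ∀ (n : ℕ) (C₂ ε : ℝ) (q Ψ : Bool → ℂ → ℂ), 0 < n → 1 ≤ C₂ → 0 < ε → Pf q → Pf Ψ →
    ∃ C : ℝ, 0 ≤ C ∧ ∀ (K : Type) [Field K] [NumberField K], Module.finrank ℚ K = n →
    ∀ (l s k κ b κ₃ b₃ e k' se s' g f : Ideal (𝓞 K)) (Y : ℝ) (M : FI K)
    (y : InfinitePlace K → ℝ) (ω : InfinitePlace K → ℂ) (ρ : K) (G α τ : InfinitePlace K → ℝ)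
    (A : Set K) (ι : Type) (I : Finset ι) (γ : ι → 𝓞 K) (c : ι → InfinitePlace K → ℂ)
    (qq E : ι → K → ℂ) (D : ℝ),
    SK l s k Y → l ≤ Ideal.span {(2 : 𝓞 K)} → M ≠ 0 → Pos ω → ρ ∈ M →
    Cn s k κ b κ₃ b₃ Y → k = e * k' → s = se * s' → e ≤ κ ⊔ k → se ≤ κ ⊔ s → se = g * f →
    FT l k.radical ((k.radical ⊓ k') * s') (e * f) M ρ A I qq E (Real.sqrt (Nf K (s' * k'))) →
    CO ((k.radical ⊓ k') * s') (e * f) I E (ww k.radical k' (s' ⊔ κ₃) γ)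
      (Nf K k.radical * (dvs K s).card ^ 2) (Nf K k.radical ^ 2 / Nf K (s' * k'))
      (C₂ * ((dvs K s).card ^ 3 * Nf K k.radical * Nf K (e * f) *
        (Nf K e * Nf K se * Y) / Nf K (s' * k'))) →
    (∀ δ ∈ A, ∀ v, α v ≤ ‖wv v δ y ω‖ ∧ ‖wv v δ y ω‖ < 2 * α v) →
    (∀ v, 1 ≤ G v ∧ 0 < α v ∧ α v ≤ 1 / 10000 ∧ G v * α v ≤ 1 / 10000 ∧ G v ^ 3 ≤ τ v) →
    (∀ i ∈ I, Cls τ (c i)) →
    (∀ i ∈ I, ∀ j ∈ I, γ i - γ j ∈ b₃ ∧ ∀ v, ‖c i v - c j v‖ ≤ 2 * G v ^ 3) →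
    SpG I b γ c G D → 1 ≤ D →
    ∑ i ∈ I, ‖OQ q Ψ A (((l * k.radical : Ideal (𝓞 K)) : FI K) * M) y ω ρ (qq i) G (c i)‖ ≤
      C * (DD M y * Nf K g / Nf K l * (D * dK K ^ 2 * (Nf K k.radical * Y) ^ 3 *
        (Nf K (s * k) * PP τ) ^ ε * ((I.card : ℝ) ^ (1 / 2 : ℝ) *
          ((Nf K (s * k) * PP τ) ^ (1 / 2 : ℝ) * (Nf K κ * PP G) ^ (-(3 / 2) : ℝ)) +
            I.card * (1 + DD M y * Nf K g / Nf K l / (Nf K (s * k) * PP τ)))))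

/-! ### The mean square over a family of boxes at a fixed position -/

/-- (Q1) small radii. -/
def F_Q1 : Prop :=
  ∀ (n : ℕ) (ε : ℝ) (p : Bool → ℂ → ℂ), 0 < n → 0 < ε → Pf p → ∃ C : ℝ, 0 ≤ C ∧
    ∀ (K : Type) [Field K] [NumberField K], Module.finrank ℚ K = n →
    ∀ (l s k κ : Ideal (𝓞 K)) (Y : ℝ) (θ : 𝓞 K ⧸ k → ℂ) (M : FI K) (x₀ : K)
    (y : InfinitePlace K → ℝ) (ω : InfinitePlace K → ℂ) (ρ : K) (G τ : InfinitePlace K → ℝ)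
    (ι : Type) (J : Finset ι) (bl : ι → ℕ) (η : ι → 𝓞 K ⧸ (s * k) → ℂ) (γ : ι → 𝓞 K)
    (c : ι → InfinitePlace K → ℂ) (D : ℝ), SK l s k Y → FP l (s * k) M x₀ → Pos ω → ρ ∈ M →
    Kq s k κ → FN s k (κ ⊔ k) θ J η γ → (∀ v, 1 ≤ G v ∧ G v ^ 3 ≤ τ v) →
    (∀ j ∈ J, Cls τ (c j)) → Lab κ J bl η c G → SpE J η c D → 1 ≤ D →
    ∑ j ∈ J, ‖SQ p (((l * k.radical : Ideal (𝓞 K)) : FI K) * M) y ω ρ
        (cq (s * k) (η j) M x₀) (c j)‖ ^ 2 ≤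
      C * (D * dK K ^ 2 * (Nf K k.radical * Y) ^ 4 * (Nf K (s * k) * PP τ) ^ ε *
        QB (s * k) κ τ G ((J.image bl).card : ℝ) *
        ((1 + DD M y / Nf K l) *
          (1 + DD M y / Nf K l / (Nf K (s * k) * PP τ)) ^ (3 / 2 : ℝ)))

/-- (Q2) all radii. -/
def F_Q2 : Prop :=
  ∀ (n : ℕ) (ε : ℝ) (p : Bool → ℂ → ℂ), 0 < n → 0 < ε → Pf p → ∃ C : ℝ, 0 ≤ C ∧
    ∀ (K : Type) [Field K] [NumberField K], Module.finrank ℚ K = n →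
    ∀ (l s k κ : Ideal (𝓞 K)) (Y : ℝ) (θ : 𝓞 K ⧸ k → ℂ) (M : FI K) (x₀ : K)
    (y : InfinitePlace K → ℝ) (ω : InfinitePlace K → ℂ) (ρ : K) (H τ : InfinitePlace K → ℝ)
    (ι : Type) (J : Finset ι) (bl : ι → ℕ) (η : ι → 𝓞 K ⧸ (s * k) → ℂ) (γ : ι → 𝓞 K)
    (c : ι → InfinitePlace K → ℂ) (D : ℝ), SK l s k Y → FP l (s * k) M x₀ → Pos ω → ρ ∈ M →
    Kq s k κ → FN s k (κ ⊔ k) θ J η γ → (∀ v, 1 ≤ H v ∧ 1 ≤ τ v) →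
    (∀ j ∈ J, Cls τ (c j)) → Lab κ J bl η c H → SpE J η c D → 1 ≤ D →
    ∑ j ∈ J, ‖SQ p (((l * k.radical : Ideal (𝓞 K)) : FI K) * M) y ω ρ
        (cq (s * k) (η j) M x₀) (c j)‖ ^ 2 ≤
      C * (D * dK K ^ 2 * (Nf K k.radical * Y) ^ 4 * (Nf K (s * k) * PP τ) ^ ε *
        QB (s * k) κ τ H ((J.image bl).card : ℝ) *
        ((1 + DD M y / Nf K l) *
          (1 + DD M y / Nf K l / (Nf K (s * k) * PP τ)) ^ (3 / 2 : ℝ)))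

/-- (QF) the mean square for a wider class of frequencies. -/
def F_QF : Prop :=
  ∀ n : ℕ, 0 < n → ∃ B : ℝ, 0 ≤ B ∧ ∀ (ε : ℝ) (p : Bool → ℂ → ℂ), 0 < ε → ε ≤ 1 → Pf p →
    ∃ C : ℝ, 0 ≤ C ∧ ∀ (K : Type) [Field K] [NumberField K], Module.finrank ℚ K = n →
    ∀ (l s k κ : Ideal (𝓞 K)) (Y : ℝ) (M : FI K) (x₀ : K) (y : InfinitePlace K → ℝ)
    (ω : InfinitePlace K → ℂ) (ρ : K) (H τ : InfinitePlace K → ℝ) (ι : Type) (J : Finset ι)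
    (bl : ι → ℕ) (η : ι → 𝓞 K ⧸ (s * k) → ℂ) (c : ι → InfinitePlace K → ℂ) (D Λ : ℝ),
    SK l s k Y → FP l (s * k) M x₀ → Pos ω → ρ ∈ M → Kq s k κ →
    (∀ j ∈ J, LC (s * k) (η j)) → 1 ≤ Λ → (∀ v, 1 ≤ H v ∧ 1 ≤ τ v) →
    (∀ j ∈ J, ∀ v, Rl (rv v) (c j v) ∧ τ v ≤ Λ * (1 + ‖c j v‖) ∧ 1 + ‖c j v‖ ≤ Λ * τ v) →
    Lab κ J bl η c H → SpE J η c D → 1 ≤ D →
    ∑ j ∈ J, ‖SQ p (((l * k.radical : Ideal (𝓞 K)) : FI K) * M) y ω ρ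
        (cq (s * k) (η j) M x₀) (c j)‖ ^ 2 ≤
      C * ((D * dK K * (Nf K k.radical * Y) * Λ) ^ B * (Nf K (s * k) * PP τ) ^ ε *
        QB (s * k) κ τ H ((J.image bl).card : ℝ) *
        ((1 + DD M y / Nf K l) *
          (1 + DD M y / Nf K l / (Nf K (s * k) * PP τ)) ^ (3 / 2 : ℝ)))

end Pool.Agent.H23.DF
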