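import Pool.Agent.H23.DF.Targets

/-!
# DIHEDRAL: the kernel part, basic facts
-/

set_option autoImplicit false

open MeasureTheory Set Filter
open scoped Real Topology

namespace Pool.Agent.H23.DF

open Pool.Agent.H31.CN Pool.Agent.H89.FM Pool.Agent.H89.FC Pool.Agent.H89.DF

theorem norm_ur (τ : ℝ) : ‖ur τ‖ = 1 := by
  unfold ur
  exact Complex.norm_exp_ofReal_mul_I _

theorem ur_ne (τ : ℝ) : ur τ ≠ 0 := by
  unfold ur
  exact Complex.exp_ne_zero _

theorem cont_ur : Continuous ur := by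
  unfold ur
  have h : Continuous fun τ : ℝ => 2 * Real.arctan (Real.exp (-τ)) :=
    continuous_const.mul (Real.continuous_arctan.comp (Real.continuous_exp.comp continuous_neg))
  exact Complex.continuous_exp.comp ((Complex.continuous_ofReal.comp h).mul continuous_const)

theorem cont_trr (κ : ℕ) (m : ℤ) : Continuous (trr κ m) := by
  unfold trr
  exact ((cont_ur.zpow₀ m (fun τ => Or.inl (ur_ne τ))).add
    (continuous_const.mul (cont_ur.zpow₀ (-m) (fun τ => Or.inl (ur_ne τ))))).div_const _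

theorem norm_trr_le (κ : ℕ) (m : ℤ) (τ : ℝ) : ‖trr κ m τ‖ ≤ 1 := by
  unfold trr
  rw [norm_div]
  have h1 : ‖ur τ ^ m + (-1) ^ κ * ur τ ^ (-m)‖ ≤ 2 := by
    refine (norm_add_le _ _).trans ?_
    rw [norm_mul, norm_zpow, norm_zpow, norm_ur, norm_pow, norm_neg, norm_one, one_zpow, one_zpow,
      one_pow]
    norm_num
  rw [Complex.norm_ofNat]
  linarith

theorem trr_neg (κ : ℕ) (m : ℤ) (τ : ℝ) : trr κ (-m) τ = (-1) ^ κ * trr κ m τ := by
  unfold trr
  have h : ((-1 : ℂ) ^ κ) * (-1) ^ κ = 1 := by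
    rw [← mul_pow]
    norm_num
  rw [neg_neg]
  linear_combination (-(1 / 2) * ur τ ^ (-m)) * h

theorem cosh_ge (τ : ℝ) : Real.exp |τ| / 2 ≤ Real.cosh τ := by
  rw [← Real.cosh_abs, Real.cosh_eq]
  have := Real.exp_pos (-|τ|)
  linarith

theorem cosh_one (τ : ℝ) : 1 ≤ Real.cosh τ := Real.one_le_cosh τ

theorem expabs_int {a : ℝ} (ha : 0 < a) : Integrable (fun τ : ℝ => Real.exp (-a * |τ|)) := by
  have h1 : IntegrableOn (fun τ : ℝ => Real.exp (-a * |τ|)) (Ioi 0) := by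
    refine (exp_neg_integrableOn_Ioi 0 ha).congr_fun ?_ measurableSet_Ioi
    intro τ hτ
    simp only [abs_of_pos (mem_Ioi.1 hτ)]
  have h2 : IntegrableOn (fun τ : ℝ => Real.exp (-a * |τ|)) (Iic 0) := by
    refine (integrableOn_exp_mul_Iic ha 0).congr_fun ?_ measurableSet_Iic
    intro τ hτ
    simp only [abs_of_nonpos (mem_Iic.1 hτ), neg_mul, mul_neg, neg_neg]
  have h := h2.union h1
  rw [Iic_union_Ioi] at h
  exact integrableOn_univ.1 h

theorem cosh_rpow_le {a : ℝ} (ha : 0 ≤ a) (τ : ℝ) :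
    Real.cosh τ ^ (-a) ≤ 2 ^ a * Real.exp (-a * |τ|) := by
  have h0 : 0 < Real.exp |τ| / 2 := by positivity
  have h1 : Real.cosh τ ^ (-a) ≤ (Real.exp |τ| / 2) ^ (-a) :=
    Real.rpow_le_rpow_of_nonpos h0 (cosh_ge τ) (by linarith)
  refine h1.trans (le_of_eq ?_)
  rw [Real.div_rpow (Real.exp_pos _).le (by norm_num), ← Real.exp_mul, Real.rpow_neg (by norm_num),
    div_inv_eq_mul, mul_comm]
  congr 2
  ring

theorem cont_cosh_rpow (a : ℝ) : Continuous (fun τ : ℝ => Real.cosh τ ^ a) := by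
  refine Real.continuous_cosh.rpow_const (fun τ => Or.inl ?_)
  have := cosh_one τ
  linarith

theorem cosh_int {a : ℝ} (ha : 0 < a) : Integrable (fun τ : ℝ => Real.cosh τ ^ (-a)) := by
  refine Integrable.mono' ((expabs_int ha).const_mul (2 ^ a)) (cont_cosh_rpow _).aestronglyMeasurable
    (ae_of_all _ fun τ => ?_)
  have h : 0 ≤ Real.cosh τ ^ (-a) := Real.rpow_nonneg (by have := cosh_one τ; linarith) _
  rw [Real.norm_eq_abs, abs_of_nonneg h]
  exact cosh_rpow_le ha.le τ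

theorem norm_cosh_cpow (τ : ℝ) (s : ℂ) :
    ‖((Real.cosh τ : ℝ) : ℂ) ^ s‖ = Real.cosh τ ^ s.re := by
  have h : 0 < Real.cosh τ := by have := cosh_one τ; linarith
  rw [Complex.norm_cpow_eq_rpow_re_of_pos h]

theorem norm_expi (ν τ : ℝ) : ‖Complex.exp (-(((ν * τ : ℝ) : ℂ) * Complex.I))‖ = 1 := by
  have h : -(((ν * τ : ℝ) : ℂ) * Complex.I) = ((-(ν * τ) : ℝ) : ℂ) * Complex.I := by
    push_cast
    ring
  rw [h, Complex.norm_exp_ofReal_mul_I]

theorem cont_cosh_cpow (s : ℂ) : Continuous (fun τ : ℝ => ((Real.cosh τ : ℝ) : ℂ) ^ s) := by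
  refine Continuous.cpow (Complex.continuous_ofReal.comp Real.continuous_cosh) continuous_const ?_
  intro τ
  rw [Complex.ofReal_mem_slitPlane]
  have := cosh_one τ
  linarith

theorem cont_expi (ν : ℝ) :
    Continuous (fun τ : ℝ => Complex.exp (-(((ν * τ : ℝ) : ℂ) * Complex.I))) := by
  refine Complex.continuous_exp.comp (Continuous.neg ?_)
  exact (Complex.continuous_ofReal.comp (continuous_const.mul continuous_id)).mul continuous_const

theorem cont_integrand (κ : ℕ) (m : ℤ) (ν : ℝ) (s : ℂ) :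
    Continuous (fun τ : ℝ => trr κ m τ * ((Real.cosh τ : ℝ) : ℂ) ^ (-s) *
      Complex.exp (-(((ν * τ : ℝ) : ℂ) * Complex.I))) :=
  ((cont_trr κ m).mul (cont_cosh_cpow (-s))).mul (cont_expi ν)

theorem norm_integrand_le (κ : ℕ) (m : ℤ) (ν : ℝ) (s : ℂ) (τ : ℝ) :
    ‖trr κ m τ * ((Real.cosh τ : ℝ) : ℂ) ^ (-s) *
      Complex.exp (-(((ν * τ : ℝ) : ℂ) * Complex.I))‖ ≤ Real.cosh τ ^ (-s.re) := by
  rw [norm_mul, norm_mul, norm_expi, norm_cosh_cpow, mul_one, Complex.neg_re]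
  have h : 0 ≤ Real.cosh τ ^ (-s.re) := Real.rpow_nonneg (by have := cosh_one τ; linarith) _
  exact mul_le_of_le_one_left h (norm_trr_le κ m τ)

theorem pf_CRI : T_CRI := by
  intro κ m ν s hs
  have h1 : Integrable (fun τ : ℝ => trr κ m τ * ((Real.cosh τ : ℝ) : ℂ) ^ (-s) *
      Complex.exp (-(((ν * τ : ℝ) : ℂ) * Complex.I))) :=
    Integrable.mono' (cosh_int hs) (cont_integrand κ m ν s).aestronglyMeasurable
      (ae_of_all _ (norm_integrand_le κ m ν s))
  refine ⟨h1, norm_trr_le κ m, ?_⟩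
  unfold crr
  exact norm_integral_le_of_norm_le (cosh_int hs) (ae_of_all _ (norm_integrand_le κ m ν s))

end Pool.Agent.H23.DF
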