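import Pool.Agent.H23.DM.TargetsQ

/-!
# Moments of Hecke L-functions, friable conductors: definitions

The modulus is `l * (s * k)`: `s` is squarefree and friable, `k` has a small radical.
-/

set_option autoImplicit false

open NumberField NumberField.InfinitePlace NumberField.Units
  NumberField.Units.dirichletUnitTheorem MeasureTheory Set Filter Complex
open scoped nonZeroDivisors ENNReal

namespace Pool.Agent.H23.DF

open Pool.Agent.H25.HK Pool.Agent.H23.LB Pool.Agent.H23.LC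
open Pool.Agent.H28.RC (Rep ft idl)
open Pool.Agent.H29.DW (dg Rl lf wv Pos Wg cpar Ci om zs rv Wt PrG IsCon)
open Pool.Agent.H29.TC (Gn LC cq dvs AC MC)
open Pool.Agent.H31.SW (EE itg FF HD DB DS dif Pf GG G2 DD PP pF dK pz ps Tf WG)
open Pool.Agent.H31.SX (ND RK Gcd LK)
open Pool.Agent.H27.TM (Sh S4 lo Maj G3 kp El Cr Am mf Dl mc Ep Cls Spc bt th1)
open Pool.Agent.H23.DM (lg5 h5 Fq Mz cm SQ MP OQ de SpE SpG FP PhZ PY LoC Lab QB Clq)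

variable {K : Type} [Field K] [NumberField K]

/-- `s` is squarefree and prime to `k`, the norms of its prime divisors are at most `Y`; `l` and
`210` are prime to `s k`; the exponents of `k` are at least `3`. -/
structure SK (l s k : Ideal (𝓞 K)) (Y : ℝ) : Prop where
  lk : LK l (s * k)
  cop : s ⊔ k = ⊤
  sqf : s.radical = s
  cub : k ≤ k.radical ^ 3
  one : 1 ≤ Y
  fri : ∀ P : Ideal (𝓞 K), P.IsPrime → s ≤ P → Nf K P ≤ Y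

/-- the ideals of the cosets -/
structure Kq (s k κ : Ideal (𝓞 K)) : Prop where
  le : s * k ≤ κ
  rad : κ ≤ k.radical
  cub : k ≤ (κ ⊔ k) ^ 3
  six : (κ ⊔ k) ^ 6 ≤ k
  nrm : Nf K (κ ⊔ s) ^ 3 ≤ Nf K s

/-- The chain: `κ₃` is `κ ^ 3` at `k`, and at `s` it is a multiple of `κ` of norm at most
`N(κ) ^ 3 Y`. -/
structure Cn (s k κ b κ₃ b₃ : Ideal (𝓞 K)) (Y : ℝ) : Prop where
  kq : Kq s k κ
  b_eq : s * k = κ * b
  κ₃_le : κ₃ ≤ κ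
  b₃_eq : s * k = κ₃ * b₃
  loc : κ₃ ⊔ k = (κ ⊔ k) ^ 3
  up : Nf K (κ₃ ⊔ s) ≤ Nf K (κ ⊔ s) ^ 3 * Y
  lo : Nf K κ ^ 3 ≤ Nf K κ₃

/-- A family of primitive characters modulo `s k` with frequencies: at `k` frequencies on
`1 + κ₀`, at `s` labels. -/
structure FN (s k κ₀ : Ideal (𝓞 K)) (θ : 𝓞 K ⧸ k → ℂ) {ι : Type} (J : Finset ι)
    (η : ι → 𝓞 K ⧸ (s * k) → ℂ) (γ : ι → 𝓞 K) : Prop where
  nd : ND θ
  lc : ∀ j ∈ J, LC (s * k) (η j)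
  fq : ∀ j ∈ J, ∀ t ∈ s ⊓ κ₀, η j (Ideal.Quotient.mk (s * k) (1 + t)) =
    θ (Ideal.Quotient.mk k (γ j) * lg5 (Ideal.Quotient.mk k t))
  eq : ∀ i ∈ J, ∀ j ∈ J, ∀ κ' b' : Ideal (𝓞 K), κ' ≤ κ₀ → s * k = κ' * b' →
    (γ i - γ j ∈ b' ↔ ∀ t ∈ κ', η i (Ideal.Quotient.mk (s * k) (1 + t)) =
      η j (Ideal.Quotient.mk (s * k) (1 + t)))

/-- the lattice of the products `δ ξ` -/
noncomputable def Nh (H F : Ideal (𝓞 K)) : FI K := du K ((H : FI K) * Mz K F)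

/-- The Fourier transforms of the coefficients of the midpoints depend on the product of `δ` and the
dual variable only. -/
structure FT (l r H F : Ideal (𝓞 K)) (M : FI K) (ρ : K) (A : Set K) {ι : Type} (I : Finset ι)
    (q E : ι → K → ℂ) (W : ℝ) : Prop where
  mem : ∀ δ ∈ A, δ ≠ 0 ∧ 2 * δ ∈ ((l * F : Ideal (𝓞 K)) : FI K) * M
  norm : ∀ i ∈ I, ∀ x ∈ M, ‖q i x‖ ≤ 1
  per : ∀ δ ∈ A, ∀ i ∈ I, ∀ x ∈ M, ∀ t ∈ ((l * H : Ideal (𝓞 K)) : FI K) * M,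
    cm l r M ρ δ (q i) (x + t) = cm l r M ρ δ (q i) x
  ft : ∀ δ ∈ A, ∃ φ : K → ℂ, (∀ ξ, ‖φ ξ‖ ≤ 1) ∧ ∀ i ∈ I, ∀ X : Finset K,
    Rep K (l * H) M X → ∀ ξ ∈ du K (((l * H : Ideal (𝓞 K)) : FI K) * M),
      ft K X (cm l r M ρ δ (q i)) ξ = (W : ℂ) * φ ξ * E i (δ * ξ)

/-- `C` is the correlation of the functions `e₁` and `e₂` on the dual lattice: the value at `0` is
at most `w`, the sums over the nonzero points of boxes are at most `X` times the volume. -/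
structure Co (H F : Ideal (𝓞 K)) (e₁ e₂ C : K → ℂ) (w X : ℝ) : Prop where
  per : ∀ x ∈ Mz K F, ∀ t ∈ (H : FI K) * Mz K F, C (x + t) = C x
  zero : ‖C 0‖ ≤ w
  box : ∀ β : InfinitePlace K → ℝ, (∀ v, 0 < β v) → ∀ X₁ : Finset K,
    (∀ x ∈ X₁, x ∈ Mz K F ∧ x ≠ 0 ∧ ∀ v : InfinitePlace K, ‖v.embedding x‖ ≤ β v) →
    ∑ x ∈ X₁, ‖C x‖ ≤ X * PP β
  ft : ∀ X₂ : Finset K, Rep K H (Mz K F) X₂ → ∀ ν ∈ Nh H F,
    ft K X₂ C ν = e₁ ν * (starRingEnd ℂ) (e₂ ν)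

/-- The dual functions are the products of a common function `E₀` and of functions `Et i` with
correlations. -/
structure CO (H F : Ideal (𝓞 K)) {ι : Type} (I : Finset ι) (E : ι → K → ℂ) (w : ι → ι → ℝ)
    (D₁ Z X : ℝ) : Prop where
  zero : ∀ i ∈ I, ‖E i 0‖ ^ 2 ≤ Z
  fac : ∃ (E₀ : K → ℂ) (Et : ι → K → ℂ), (∀ ν ∈ Nh H F, ‖E₀ ν‖ ^ 2 ≤ D₁) ∧
    (∀ i ∈ I, ∀ ν ∈ Nh H F, ‖Et i ν‖ ^ 2 ≤ D₁ ∧ E i ν = E₀ ν * Et i ν) ∧
    ∀ i ∈ I, ∀ j ∈ I, ∃ C : K → ℂ, Co H F (Et i) (Et j) C (w i j) X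

open scoped Classical in
/-- the weight of a pair of frequencies -/
noncomputable def ww (r k' s₃ : Ideal (𝓞 K)) {ι : Type} (γ : ι → 𝓞 K) (i j : ι) : ℝ :=
  if ∀ t ∈ r, (γ i - γ j) * t ∈ k' then
    Nf K (s₃ ⊔ Ideal.span {γ i - γ j}) / Nf K s₃ else 0

end Pool.Agent.H23.DF
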