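import Pool.Agent.H23.DF.Defs
import Pool.Agent.H29.DW.Stmt

/-!
# Moments of Hecke L-functions, friable conductors: the final statement
-/

set_option autoImplicit false

open NumberField NumberField.InfinitePlace MeasureTheory Complex

namespace Pool.Agent.H23.DF

open Pool.Agent.H23.LC Pool.Agent.H29.DW
open Pool.Agent.H23.LB (ph)

section NF

variable {K : Type} [Field K] [NumberField K]

/-- `S` is a set of pairs of a Hecke character modulo `l (s k)`, primitive at the primes of `s k`,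
and a real number, with local conductors at most `T v` at infinity; the real numbers which belong to
the same character have distances at least `1`. -/
structure Sep (l s k : Ideal (𝓞 K)) (T : InfinitePlace K → ℝ)
    (S : Finset (HG K (l * (s * k)) × ℝ)) : Prop where
  prim : ∀ q ∈ S, PrG (s * k) q.1
  sep : ∀ q ∈ S, ∀ q' ∈ S, q.1 = q'.1 → q.2 ≠ q'.2 → 1 ≤ |q.2 - q'.2|
  size : ∀ q ∈ S, ∀ v : InfinitePlace K, 1 + |q.2 - q.1.ν v| + |(q.1.k v : ℝ)| ≤ T v

/-- Moreover, `S` is divided into the `R` classes `bl = 0, ..., R - 1`: the parameters at infinity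
of two pairs in the same class have the distance at most `H v`, and the components at `s k` of their
characters agree on `1 + κ` (the quotient of the characters has at every `a ≡ 1 mod l κ` the value
given by the parameters at infinity). -/
structure Fam (l s k κ : Ideal (𝓞 K)) (T H : InfinitePlace K → ℝ) (R : ℕ)
    (S : Finset (HG K (l * (s * k)) × ℝ)) (bl : HG K (l * (s * k)) × ℝ → ℕ) : Prop
    extends Sep l s k T S where
  radii : ∀ v, 1 ≤ H v ∧ H v ^ 3 ≤ T v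
  level : Kq s k κ
  cls : ∀ q ∈ S, bl q < R
  near : ∀ q ∈ S, ∀ q' ∈ S, bl q = bl q' → ∀ v : InfinitePlace K,
    |(q.2 - q.1.ν v) - (q'.2 - q'.1.ν v)| + |(q.1.k v : ℝ) - q'.1.k v| ≤ H v
  loc : ∀ q ∈ S, ∀ q' ∈ S, bl q = bl q' → ∀ a : 𝓞 K, a ≠ 0 → a - 1 ∈ l * κ →
    q.1.ψ (Ideal.span {a}) * (ag q'.1.k (a : K) * ph q'.1.ν (a : K)) =
      q'.1.ψ (Ideal.span {a}) * (ag q.1.k (a : K) * ph q.1.ν (a : K))

/-- `N(f) ∏_v T_v ^ (e_v)` -/
noncomputable def vol (f : Ideal (𝓞 K)) (T : InfinitePlace K → ℝ) : ℝ :=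
  Ideal.absNorm f * ∏ v, T v ^ v.mult

variable (K) in
/-- The Hecke characters modulo `l (s k)`, primitive at the primes of `s k`, with
`|ν_v|, |k_v| ≤ T`. -/
def boxP (l s k : Ideal (𝓞 K)) (T : ℝ) : Set (HG K (l * (s * k))) :=
  {χ ∈ box K (l * (s * k)) T | PrG (s * k) χ}

/-- `|d_K| N(l) N(rad k) Y` -/
noncomputable def bad (l k : Ideal (𝓞 K)) (Y : ℝ) : ℝ :=
  |(discr K : ℝ)| * Ideal.absNorm l * Ideal.absNorm k.radical * Y

end NF

/-- The final statement: the twelfth moment over separated sets, the mean square over sets divided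
into classes, and the twelfth moment over the primitive characters of a box and over `t`. -/
def F_FIN : Prop :=
  ∀ m : ℕ, 1 ≤ m → ∃ B : ℝ, ∀ ε : ℝ, 0 < ε → ∃ C : ℝ, ∀ (K : Type) [Field K] [NumberField K],
    Module.finrank ℚ K = m → ∀ (l s k : Ideal (𝓞 K)) (Y : ℝ), SK l s k Y →
    ∃ L : HG K (l * (s * k)) → ℂ → ℂ, (∀ χ : HG K (l * (s * k)), IsCon χ (L χ)) ∧
    (∀ (T : InfinitePlace K → ℝ) (S : Finset (HG K (l * (s * k)) × ℝ)), (∀ v, 1 ≤ T v) →
      Sep l s k T S → ∑ q ∈ S, ‖L q.1 (1 / 2 + q.2 * I)‖ ^ 12 ≤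
        C * bad l k Y ^ B * vol (s * k) T ^ (2 + ε)) ∧
    (∀ (κ : Ideal (𝓞 K)) (T H : InfinitePlace K → ℝ) (R : ℕ)
      (S : Finset (HG K (l * (s * k)) × ℝ)) (bl : HG K (l * (s * k)) × ℝ → ℕ),
      Fam l s k κ T H R S bl → ∑ q ∈ S, ‖L q.1 (1 / 2 + q.2 * I)‖ ^ 2 ≤
        C * bad l k Y ^ B * vol (s * k) T ^ ε *
          (R * vol κ H + √R * vol (s * k) T / vol κ H ^ 2)) ∧
    ∀ T : ℝ, 1 ≤ T → (boxP K l s k T).Finite ∧
      ∑ᶠ χ ∈ boxP K l s k T, ∫ t in (-T)..T, ‖L χ (1 / 2 + t * I)‖ ^ 12 ≤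
        C * bad l k Y ^ B * (Ideal.absNorm (s * k) * T ^ m) ^ (2 + ε) ∧
      ∀ V : ℝ, 0 < V →
        ({χ ∈ boxP K l s k T | ∃ t : ℝ, |t| ≤ T ∧ V < ‖L χ (1 / 2 + t * I)‖}.ncard : ℝ) ≤
          C * bad l k Y ^ B * (Ideal.absNorm (s * k) * T ^ m) ^ (2 + ε) / V ^ 12

end Pool.Agent.H23.DF
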