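import Pool.Agent.H23.DF.TargetsA
import Pool.Agent.H23.DF.Stmt
import Pool.Agent.H23.GLB.Avg

/-!
# Moments of Hecke L-functions, friable conductors: the final statement from (FI)
-/

set_option autoImplicit false

open NumberField NumberField.InfinitePlace NumberField.Units
  NumberField.Units.dirichletUnitTheorem MeasureTheory Set Filter Complex
open scoped nonZeroDivisors ENNReal

namespace Pool.Agent.H23.DF

open Pool.Agent.H25.HK Pool.Agent.H23.LB Pool.Agent.H23.LC
open Pool.Agent.H29.DW (PrG IsCon)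
open Pool.Agent.H31.SX (LK)

section NF

variable {K : Type} [Field K] [NumberField K] {f : Ideal (𝓞 K)}

private lemma cont_L {L : ℂ → ℂ} (h : ∀ s : ℂ, s ≠ 0 → s ≠ 1 → DifferentiableAt ℂ L s) :
    Continuous fun t : ℝ => L (1 / 2 + t * I) := by
  rw [continuous_iff_continuousAt]
  intro t
  have h0 : (1 / 2 + t * I : ℂ) ≠ 0 := by
    intro hh
    have := congrArg Complex.re hh
    simp at this
  have h1 : (1 / 2 + t * I : ℂ) ≠ 1 := by
    intro hh
    have := congrArg Complex.re hh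
    simp at this
  exact ContinuousAt.comp (f := fun t : ℝ => (1 / 2 + t * I : ℂ)) (h _ h0 h1).continuousAt
    (by fun_prop)

private lemma disc_ge : 1 ≤ |(discr K : ℝ)| := by
  have h : (1 : ℤ) ≤ |discr K| := Int.one_le_abs (discr_ne_zero K)
  have h2 : ((1 : ℤ) : ℝ) ≤ ((|discr K| : ℤ) : ℝ) := by exact_mod_cast h
  simpa using h2

private lemma N_ge (hf : f ≠ ⊥) : 1 ≤ (Ideal.absNorm f : ℝ) := by
  have h : Ideal.absNorm f ≠ 0 := fun h => hf (Ideal.absNorm_eq_zero_iff.1 h)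
  exact_mod_cast Nat.one_le_iff_ne_zero.2 h

private lemma sum_pairs (S : Finset (HG K f)) (P : HG K f → Finset ℝ) (F : HG K f → ℝ → ℝ) :
    ∃ S' : Finset (HG K f × ℝ), (∀ q, q ∈ S' ↔ q.1 ∈ S ∧ q.2 ∈ P q.1) ∧
      ∑ q ∈ S', F q.1 q.2 = ∑ χ ∈ S, ∑ t ∈ P χ, F χ t := by
  have hinj : Function.Injective (fun x : (_ : HG K f) × ℝ => (x.1, x.2)) := by
    rintro ⟨a, b⟩ ⟨c, d⟩ h
    have h1 := congrArg Prod.fst h
    have h2 := congrArg Prod.snd h
    change a = c at h1
    change b = d at h2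
    subst h1
    subst h2
    rfl
  refine ⟨(S.sigma P).map ⟨_, hinj⟩, fun q => ?_, ?_⟩
  · rw [Finset.mem_map]
    constructor
    · rintro ⟨x, hx, rfl⟩
      rw [Finset.mem_sigma] at hx
      exact hx
    · intro hq
      exact ⟨⟨q.1, q.2⟩, Finset.mem_sigma.2 hq, rfl⟩
  · rw [Finset.sum_map, Finset.sum_sigma]
    rfl

end NF

/-- the final statement -/
theorem pf_FIN (hFI : F_FI) (hFG : U_FG) : F_FIN := by
  intro m hm
  obtain ⟨B, h⟩ := hFI m hm
  refine ⟨B, fun ε hε => ?_⟩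
  obtain ⟨C₁, h1⟩ := h ε hε
  set C₃ : ℝ := |C₁| * ((4 : ℝ) ^ m) ^ (2 + ε) with hC₃
  have hC₃0 : 0 ≤ C₃ := by positivity
  refine ⟨max C₁ C₃, ?_⟩
  intro K _ _ hK l s k Y hSK
  classical
  obtain ⟨L, hL, hF⟩ := h1 K hK l s k Y hSK
  have hY0 : 0 ≤ Y := zero_le_one.trans hSK.one
  have hd0 : 0 ≤ |(discr K : ℝ)| * Ideal.absNorm l * Ideal.absNorm k.radical * Y := by
    positivity
  have h12 : ((12 : ℝ) - 12) / 10 = 0 := by norm_num
  have h10 : ((12 : ℝ) - 2) / 5 + ε = 2 + ε := by norm_num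
  have hmom : ∀ (T : InfinitePlace K → ℝ) (S : Finset (HG K (l * (s * k)) × ℝ)),
      (∀ v, 1 ≤ T v) → Sep l s k T S → ∑ q ∈ S, ‖L q.1 (1 / 2 + q.2 * I)‖ ^ 12 ≤
        C₁ * bad l k Y ^ B * vol (s * k) T ^ (2 + ε) := by
    intro T S hT hS
    have h3 := hF 12 T (fun _ => 1) ⊥ 0 S (fun _ => 0) (by norm_num) le_rfl
      hT hS.prim hS.sep hS.size (fun hh => absurd hh (lt_irrefl _))
    have e3 : ∑ q ∈ S, ‖L q.1 (1 / 2 + q.2 * I)‖ ^ (12 : ℝ) =
        ∑ q ∈ S, ‖L q.1 (1 / 2 + q.2 * I)‖ ^ 12 := by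
      refine Finset.sum_congr rfl fun q _ => ?_
      rw [← Real.rpow_natCast]
      norm_num
    rw [e3, h12, Real.rpow_zero, mul_one, h10] at h3
    exact h3
  refine ⟨L, hL, ?_, ?_, ?_⟩
  · intro T S hT hS
    refine (hmom T S hT hS).trans ?_
    have hv1 : 0 ≤ ∏ v, T v ^ v.mult :=
      Finset.prod_nonneg fun v _ => pow_nonneg (zero_le_one.trans (hT v)) _
    unfold vol
    refine mul_le_mul_of_nonneg_right (mul_le_mul_of_nonneg_right (le_max_left _ _)
      (Real.rpow_nonneg hd0 _)) (by positivity)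
  · intro κ T H R S bl hfam
    have hT : ∀ v, 1 ≤ T v := fun v => by
      have h2 := hfam.radii v
      have h3 : (1 : ℝ) ≤ H v ^ 3 := one_le_pow₀ h2.1
      exact h3.trans h2.2
    have h3 := hF 2 T H κ R S bl le_rfl (by norm_num) hT hfam.prim hfam.sep hfam.size
      (fun _ => ⟨hfam.radii, hfam.level, hfam.cls, fun q hq q' hq' e =>
        ⟨hfam.near q hq q' hq' e, hfam.loc q hq q' hq' e⟩⟩)
    have e3 : ∑ q ∈ S, ‖L q.1 (1 / 2 + q.2 * I)‖ ^ (2 : ℝ) =
        ∑ q ∈ S, ‖L q.1 (1 / 2 + q.2 * I)‖ ^ 2 := by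
      refine Finset.sum_congr rfl fun q _ => ?_
      rw [← Real.rpow_natCast]
      norm_num
    have e4 : ((12 : ℝ) - 2) / 10 = 1 := by norm_num
    have e5 : ((2 : ℝ) - 2) / 5 + ε = ε := by norm_num
    have e6 : (R : ℝ) ^ (1 / 2 : ℝ) = √R := (Real.sqrt_eq_rpow _).symm
    rw [e3, e4, Real.rpow_one, e5, e6] at h3
    refine h3.trans ?_
    have hv1 : 0 ≤ ∏ v, T v ^ v.mult :=
      Finset.prod_nonneg fun v _ => pow_nonneg (zero_le_one.trans (hT v)) _
    have hv2 : 0 ≤ ∏ v, H v ^ v.mult :=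
      Finset.prod_nonneg fun v _ => pow_nonneg (zero_le_one.trans (hfam.radii v).1) _
    unfold vol bad
    refine mul_le_mul_of_nonneg_right (mul_le_mul_of_nonneg_right
      (mul_le_mul_of_nonneg_right (le_max_left _ _) (Real.rpow_nonneg hd0 _)) (by positivity))
      (by positivity)
  · intro T hT
    have hT0 : 0 < T := by linarith
    have hf0 : l * (s * k) ≠ ⊥ := mul_ne_zero hSK.lk.l_ne hSK.lk.k_ne
    have hfin0 := hFG K (l * (s * k)) T hf0 hT
    have hfin : (boxP K l s k T).Finite := hfin0.subset fun χ hχ => hχ.1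
    refine ⟨hfin, ?_⟩
    set S : Finset (HG K (l * (s * k))) := hfin.toFinset with hS
    have hSm : ∀ χ, χ ∈ S ↔ χ ∈ boxP K l s k T := fun χ => hfin.mem_toFinset
    set E : ℝ := bad l k Y ^ B with hE
    have hE0 : 0 ≤ E := Real.rpow_nonneg hd0 _
    set W : ℝ := (Ideal.absNorm (s * k) * T ^ m) ^ (2 + ε) with hW
    have hW0 : 0 ≤ W := by positivity
    set M : ℝ := C₃ * E * W with hM
    have hM0 : 0 ≤ M := by positivity
    have hMC : M ≤ max C₁ C₃ * E * W := by
      rw [hM]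
      gcongr
      exact le_max_right _ _
    -- separated points
    have hsepr : ∀ P : HG K (l * (s * k)) → Finset ℝ,
        (∀ χ, ∀ t ∈ P χ, |t| ≤ T ∧ ∀ t' ∈ P χ, t ≠ t' → 1 ≤ |t - t'|) →
        ∑ χ ∈ S, ∑ t ∈ P χ, ‖L χ (1 / 2 + t * I)‖ ^ 12 ≤ M := by
      intro P hP
      obtain ⟨S', hS', e1⟩ := sum_pairs S P (fun χ t => ‖L χ (1 / 2 + t * I)‖ ^ 12)
      rw [← e1]
      have hT4 : ∀ v : InfinitePlace K, 1 ≤ (fun _ : InfinitePlace K => 4 * T) v := by
        intro v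
        show 1 ≤ 4 * T
        linarith
      have h3 := hmom (fun _ => 4 * T) S' hT4 ⟨?_, ?_, ?_⟩
      · refine h3.trans ?_
        unfold vol
        have hPP : ∏ v : InfinitePlace K, (4 * T) ^ v.mult = (4 * T) ^ m := by
          rw [Finset.prod_pow_eq_pow_sum, NumberField.InfinitePlace.sum_mult_eq, hK]
        rw [hPP]
        have e6 : ((Ideal.absNorm (s * k) : ℝ) * (4 * T) ^ m) ^ (2 + ε) =
            ((4 : ℝ) ^ m) ^ (2 + ε) * W := by
          rw [hW, ← Real.mul_rpow (by positivity) (by positivity), mul_pow]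
          congr 1
          ring
        rw [e6, hM, hC₃]
        calc C₁ * E * (((4 : ℝ) ^ m) ^ (2 + ε) * W)
            ≤ |C₁| * E * (((4 : ℝ) ^ m) ^ (2 + ε) * W) := by
              gcongr
              exact le_abs_self _
          _ = |C₁| * ((4 : ℝ) ^ m) ^ (2 + ε) * E * W := by ring
      · intro q hq
        exact ((hSm q.1).1 ((hS' q).1 hq).1).2
      · intro p hp q hq hpq hne
        have hx := (hS' p).1 hp
        have hy := (hS' q).1 hq
        rw [← hpq] at hy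
        exact (hP p.1 p.2 hx.2).2 q.2 hy.2 hne
      · intro x hq v
        have hx := (hS' x).1 hq
        have hb := ((hSm x.1).1 hx.1).1
        have h5 := (hb v).1
        have h6 := (hb v).2
        have h7 := (hP x.1 x.2 hx.2).1
        show 1 + |x.2 - x.1.ν v| + |(x.1.k v : ℝ)| ≤ 4 * T
        have h8 := abs_sub x.2 (x.1.ν v)
        linarith
    have hsep : ∀ P : HG K (l * (s * k)) → Finset ℝ,
        (∀ χ, ∀ t ∈ P χ, |t| ≤ T ∧ ∀ t' ∈ P χ, t ≠ t' → 1 ≤ |t - t'|) →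
        ∑ χ ∈ S, ∑ t ∈ P χ, ENNReal.ofReal (‖L χ (1 / 2 + t * I)‖ ^ 12) ≤
          ENNReal.ofReal M := by
      intro P hP
      have e : ∑ χ ∈ S, ∑ t ∈ P χ, ENNReal.ofReal (‖L χ (1 / 2 + t * I)‖ ^ 12) =
          ENNReal.ofReal (∑ χ ∈ S, ∑ t ∈ P χ, ‖L χ (1 / 2 + t * I)‖ ^ 12) := by
        rw [ENNReal.ofReal_sum_of_nonneg (fun χ _ => Finset.sum_nonneg fun t _ => by positivity)]
        refine Finset.sum_congr rfl fun χ _ => ?_
        rw [ENNReal.ofReal_sum_of_nonneg (fun t _ => by positivity)]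
      rw [e]
      exact ENNReal.ofReal_le_ofReal (hsepr P hP)
    -- the integral
    have hLc : ∀ χ : HG K (l * (s * k)), Continuous fun t : ℝ => L χ (1 / 2 + t * I) := fun χ =>
      cont_L (hL χ).2.1
    have hmeas : ∀ χ : HG K (l * (s * k)), Measurable fun t : ℝ =>
        ENNReal.ofReal (‖L χ (1 / 2 + t * I)‖ ^ 12) := fun χ =>
      ENNReal.measurable_ofReal.comp ((hLc χ).norm.pow 12).measurable
    have hint : ∑ χ ∈ S, ∫⁻ t in Icc (-T) T, ENNReal.ofReal (‖L χ (1 / 2 + t * I)‖ ^ 12) ≤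
        ENNReal.ofReal M := by
      rw [← lintegral_finsetSum _ (fun χ _ => hmeas χ)]
      refine Pool.Agent.H23.GLB.avg T _ (Finset.measurable_sum _ fun χ _ => hmeas χ) _ ?_
      intro P hP hPT
      rw [Finset.sum_comm]
      exact hsep (fun _ => P) (fun χ t ht => ⟨hPT t ht, fun t' ht' hne => hP t ht t' ht' hne⟩)
    refine ⟨?_, ?_⟩
    · rw [finsum_mem_eq_finite_toFinset_sum _ hfin]
      refine le_trans ?_ hMC
      have e : ∀ χ : HG K (l * (s * k)), ∫ t in (-T)..T, ‖L χ (1 / 2 + t * I)‖ ^ 12 =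
          (∫⁻ t in Icc (-T) T, ENNReal.ofReal (‖L χ (1 / 2 + t * I)‖ ^ 12)).toReal := by
        intro χ
        rw [intervalIntegral.integral_of_le (by linarith), ← integral_Icc_eq_integral_Ioc]
        have hc2 : Continuous fun t : ℝ => ‖L χ (1 / 2 + t * I)‖ ^ 12 := (hLc χ).norm.pow 12
        rw [integral_eq_lintegral_of_nonneg_ae (Filter.Eventually.of_forall fun t => by positivity)
          hc2.aestronglyMeasurable]
      have hfi : ∀ χ ∈ S, ∫⁻ t in Icc (-T) T, ENNReal.ofReal (‖L χ (1 / 2 + t * I)‖ ^ 12) ≠ ⊤ := by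
        intro χ hχ
        have := (Finset.single_le_sum (f := fun χ => ∫⁻ t in Icc (-T) T,
          ENNReal.ofReal (‖L χ (1 / 2 + t * I)‖ ^ 12)) (fun _ _ => zero_le) hχ).trans hint
        exact ne_top_of_le_ne_top ENNReal.ofReal_ne_top this
      simp_rw [e]
      rw [← ENNReal.toReal_sum hfi]
      exact ENNReal.toReal_le_of_le_ofReal hM0 hint
    · intro V hV
      have hV2 : 0 < V ^ 12 := by positivity
      -- the number of the exceptional characters
      set A : Set (HG K (l * (s * k))) := {χ ∈ boxP K l s k T | ∃ t : ℝ, |t| ≤ T ∧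
        V < ‖L χ (1 / 2 + t * I)‖} with hA
      have hAf : A.Finite := hfin.subset fun χ hχ => hχ.1
      have hex : ∀ χ : HG K (l * (s * k)), ∃ t : ℝ, χ ∈ A → |t| ≤ T ∧
          V < ‖L χ (1 / 2 + t * I)‖ := by
        intro χ
        by_cases h : χ ∈ A
        · obtain ⟨t, ht⟩ := h.2
          exact ⟨t, fun _ => ht⟩
        · exact ⟨0, fun hh => absurd hh h⟩
      choose τ hτ using hex
      have h1 := hsepr (fun χ => if χ ∈ A then {τ χ} else ∅) (by
        intro χ t ht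
        by_cases h : χ ∈ A
        · rw [if_pos h, Finset.mem_singleton] at ht
          subst ht
          refine ⟨(hτ χ h).1, fun t' ht' hne => ?_⟩
          rw [if_pos h, Finset.mem_singleton] at ht'
          exact absurd ht'.symm hne
        · rw [if_neg h] at ht
          exact absurd ht (Finset.notMem_empty t))
      have h2 : (A.ncard : ℝ) * V ^ 12 ≤
          ∑ χ ∈ S, ∑ t ∈ (if χ ∈ A then {τ χ} else ∅ : Finset ℝ),
            ‖L χ (1 / 2 + t * I)‖ ^ 12 := by
        calc (A.ncard : ℝ) * V ^ 12 = ∑ _χ ∈ hAf.toFinset, V ^ 12 := by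
              rw [Finset.sum_const, nsmul_eq_mul, Set.ncard_eq_toFinset_card _ hAf]
          _ ≤ ∑ χ ∈ hAf.toFinset, ∑ t ∈ (if χ ∈ A then {τ χ} else ∅ : Finset ℝ),
              ‖L χ (1 / 2 + t * I)‖ ^ 12 := by
              refine Finset.sum_le_sum fun χ hχ => ?_
              have hχA : χ ∈ A := hAf.mem_toFinset.1 hχ
              rw [if_pos hχA, Finset.sum_singleton]
              exact pow_le_pow_left₀ hV.le (hτ χ hχA).2.le 12
          _ ≤ _ := by
              refine Finset.sum_le_sum_of_subset_of_nonneg ?_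
                (fun χ _ _ => Finset.sum_nonneg fun t _ => by positivity)
              intro χ hχ
              exact (hSm χ).2 (hAf.mem_toFinset.1 hχ).1
      rw [le_div_iff₀ hV2]
      exact (h2.trans h1).trans hMC

end Pool.Agent.H23.DF
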