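import Pool.Agent.H23.DF.TargetsL

/-!
# (KP) the ideals of the cosets exist
-/

set_option autoImplicit false

open NumberField UniqueFactorizationMonoid

namespace Pool.Agent.H23.DF.KP

open Pool.Agent.H23.DF Pool.Agent.H23.LB
open Pool.Agent.H23.DM hiding Kq

section aux

variable {K : Type} [Field K] [NumberField K]

open scoped Classical in
/-- the product of the powers with exponents `a` -/
private noncomputable def pp (r : Ideal (𝓞 K)) (a : Ideal (𝓞 K) → ℕ) : Ideal (𝓞 K) :=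
  ∏ P ∈ (normalizedFactors r).toFinset, P ^ a P

open scoped Classical in
private lemma mem_iff (r P : Ideal (𝓞 K)) (hr : r ≠ ⊥) :
    P ∈ (normalizedFactors r).toFinset ↔ Prime P ∧ r ≤ P := by
  rw [Multiset.mem_toFinset, UniqueFactorizationMonoid.mem_normalizedFactors_iff hr,
    Ideal.dvd_iff_le]

open scoped Classical in
private lemma pp_le (r : Ideal (𝓞 K)) (a b : Ideal (𝓞 K) → ℕ)
    (h : ∀ P ∈ (normalizedFactors r).toFinset, b P ≤ a P) : pp r a ≤ pp r b := by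
  rw [← Ideal.dvd_iff_le]
  exact Finset.prod_dvd_prod_of_dvd _ _ fun P hP => pow_dvd_pow P (h P hP)

private lemma pp_pow (r : Ideal (𝓞 K)) (a : Ideal (𝓞 K) → ℕ) (n : ℕ) :
    pp r a ^ n = pp r (fun P => a P * n) := by
  unfold pp
  rw [← Finset.prod_pow]
  exact Finset.prod_congr rfl fun P _ => (pow_mul _ _ _).symm

open scoped Classical in
private lemma Nf_pp (r : Ideal (𝓞 K)) (a : Ideal (𝓞 K) → ℕ) :
    Nf K (pp r a) = ∏ P ∈ (normalizedFactors r).toFinset, Nf K P ^ a P := by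
  unfold pp Nf
  rw [map_prod, Nat.cast_prod]
  exact Finset.prod_congr rfl fun P _ => by rw [map_pow, Nat.cast_pow]

private lemma Nf_mul (I J : Ideal (𝓞 K)) : Nf K (I * J) = Nf K I * Nf K J := by
  unfold Nf
  rw [map_mul, Nat.cast_mul]

private lemma Nf_nonneg (I : Ideal (𝓞 K)) : 0 ≤ Nf K I := by
  unfold Nf
  exact Nat.cast_nonneg _

private lemma one_le_Nf (I : Ideal (𝓞 K)) (h : I ≠ ⊥) : 1 ≤ Nf K I := by
  unfold Nf
  exact_mod_cast Nat.one_le_iff_ne_zero.2 (fun h0 => h (Ideal.absNorm_eq_zero_iff.1 h0))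

private lemma Nf_le (I J : Ideal (𝓞 K)) (h : I ≤ J) (hI : I ≠ ⊥) : Nf K J ≤ Nf K I := by
  unfold Nf
  have h1 : 0 < Ideal.absNorm I :=
    Nat.pos_of_ne_zero fun h0 => hI (Ideal.absNorm_eq_zero_iff.1 h0)
  exact_mod_cast Nat.le_of_dvd h1 (Ideal.absNorm_dvd_absNorm_of_le h)

omit [NumberField K] in
private lemma ne_of_le {I J : Ideal (𝓞 K)} (h : I ≤ J) (hI : I ≠ ⊥) : J ≠ ⊥ :=
  fun h0 => hI (le_bot_iff.1 (h0 ▸ h))

/-- the exponents -/
private lemma exp_ex (a : ℕ) (ha : 3 ≤ a) (θ : ℝ) (h1 : 1 / 6 ≤ θ) (h2 : θ ≤ 1 / 3) :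
    ∃ c : ℕ, a ≤ c * 6 ∧ c * 3 ≤ a ∧ (c : ℝ) ≤ θ * a + 1 ∧ θ * a ≤ c + 1 := by
  have ha0 : (0 : ℝ) ≤ a := Nat.cast_nonneg a
  have ha3 : (3 : ℝ) ≤ a := by exact_mod_cast ha
  have hθ0 : 0 ≤ θ * a := by nlinarith
  have hf1 := Nat.floor_le hθ0
  have hf2 := Nat.lt_floor_add_one (θ * a)
  by_cases hc : a ≤ ⌊θ * a⌋₊ * 6
  · refine ⟨⌊θ * a⌋₊, hc, ?_, by linarith, by linarith⟩
    have : ((⌊θ * a⌋₊ * 3 : ℕ) : ℝ) ≤ a := by
      push_cast
      nlinarith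
    exact_mod_cast this
  · refine ⟨(a + 5) / 6, by omega, by omega, ?_, ?_⟩
    · have h3 : (((a + 5) / 6 : ℕ) : ℝ) * 6 ≤ a + 5 := by
        have : (a + 5) / 6 * 6 ≤ a + 5 := Nat.div_mul_le_self _ _
        exact_mod_cast this
      nlinarith
    · have h4 : ⌊θ * a⌋₊ ≤ (a + 5) / 6 := by omega
      have h5 : (⌊θ * a⌋₊ : ℝ) ≤ ((a + 5) / 6 : ℕ) := by exact_mod_cast h4
      linarith

/-- the part at `k` -/
private lemma part_k (k : Ideal (𝓞 K)) (hk : k ≠ ⊥) (hcub : k ≤ k.radical ^ 3) (θ : ℝ)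
    (h1 : 1 / 6 ≤ θ) (h2 : θ ≤ 1 / 3) :
    ∃ c : Ideal (𝓞 K), k ≤ c ^ 3 ∧ c ^ 6 ≤ k ∧ c ≤ k.radical ∧ k ≤ c ∧
      Nf K c ≤ Nf K k ^ θ * Nf K k.radical ∧ Nf K k ^ θ ≤ Nf K c * Nf K k.radical := by
  classical
  have hr : k.radical ≠ ⊥ := fun h => hk (le_bot_iff.1 (h ▸ Ideal.le_radical))
  set r := k.radical with hrd
  set S := (normalizedFactors r).toFinset with hS
  set n : Ideal (𝓞 K) → ℕ := fun P => (normalizedFactors k).count P with hn
  -- factorization of `k`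
  have hkn : pp r n = k := by
    unfold pp
    conv_rhs => rw [← Ideal.prod_normalizedFactors_eq_self hk]
    refine (Finset.prod_multiset_count_of_subset _ _ ?_).symm
    intro P hP
    rw [mem_iff _ _ hk] at hP
    rw [mem_iff _ _ hr]
    exact ⟨hP.1, ((Ideal.isPrime_of_prime hP.1).radical_le_iff).2 hP.2⟩
  have hn3 : ∀ P ∈ S, 3 ≤ n P := by
    intro P hP
    have h6 := (mem_iff r P hr).1 hP
    have h7 : P ^ 3 ∣ k := by
      rw [Ideal.dvd_iff_le]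
      exact hcub.trans (Ideal.pow_right_mono h6.2 3)
    have h8 : (3 : ℕ∞) ≤ emultiplicity P k := le_emultiplicity_of_pow_dvd h7
    have h9 := emultiplicity_eq_count_normalizedFactors h6.1.irreducible hk
    rw [h9, normalize_eq] at h8
    exact_mod_cast h8
  -- factorization of `r`
  have hrn : r ≤ pp r (fun _ => 1) := by
    conv_lhs => rw [← Ideal.prod_normalizedFactors_eq_self hr, Finset.prod_multiset_count]
    refine pp_le r _ _ fun P hP => ?_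
    exact Multiset.one_le_count_iff_mem.2 (Multiset.mem_toFinset.1 hP)
  have hrn' : pp r (fun _ => 1) ≤ r := by
    conv_rhs => rw [hrd, ← Ideal.radical_idem k, Ideal.radical_eq_sInf]
    refine le_sInf fun J hJ => ?_
    have hJ0 : J ≠ ⊥ := fun h0 => hr (le_bot_iff.1 (h0 ▸ hJ.1))
    have hJS : J ∈ S := (mem_iff r J hr).2 ⟨Ideal.prime_of_isPrime hJ0 hJ.2, hJ.1⟩
    rw [← Ideal.dvd_iff_le]
    unfold pp
    have h9 := Finset.dvd_prod_of_mem (fun P : Ideal (𝓞 K) => P ^ 1) hJS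
    rw [hS] at h9
    exact (pow_one J).symm ▸ h9
  have hN1 : ∀ P ∈ S, 1 ≤ Nf K P := fun P hP =>
    one_le_Nf P ((mem_iff r P hr).1 hP).1.ne_zero
  have hkt : Nf K k ^ θ = ∏ P ∈ S, Nf K P ^ (θ * n P) := by
    conv_lhs => rw [← hkn]
    rw [Nf_pp, ← Real.finsetProd_rpow _ _ (fun P hP => pow_nonneg (by linarith [hN1 P hP]) _)]
    refine Finset.prod_congr rfl fun P hP => ?_
    rw [← Real.rpow_natCast, ← Real.rpow_mul (by linarith [hN1 P hP]), mul_comm]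
  have hex : ∀ P : Ideal (𝓞 K), ∃ c : ℕ, P ∈ S → n P ≤ c * 6 ∧ c * 3 ≤ n P ∧
      (c : ℝ) ≤ θ * n P + 1 ∧ θ * n P ≤ c + 1 := by
    intro P
    by_cases hP : P ∈ S
    · obtain ⟨c, hc⟩ := exp_ex (n P) (hn3 P hP) θ h1 h2
      exact ⟨c, fun _ => hc⟩
    · exact ⟨0, fun h => absurd h hP⟩
  choose a ha using hex
  have hN1' : Nf K (pp r (fun _ => 1)) ≤ Nf K r := Nf_le _ _ hrn hr
  have hk0 : 0 ≤ Nf K k ^ θ := Real.rpow_nonneg (Nf_nonneg k) _
  refine ⟨pp r a, ?_, ?_, ?_, ?_, ?_, ?_⟩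
  · rw [pp_pow]
    conv_lhs => rw [← hkn]
    exact pp_le r _ _ fun P hP => (ha P hP).2.1
  · rw [pp_pow]
    conv_rhs => rw [← hkn]
    exact pp_le r _ _ fun P hP => (ha P hP).1
  · refine (pp_le r _ _ fun P hP => ?_).trans hrn'
    have h3 := (ha P hP).1
    have h4 := hn3 P hP
    show 1 ≤ a P
    omega
  · conv_lhs => rw [← hkn]
    refine pp_le r _ _ fun P hP => ?_
    have h3 := (ha P hP).2.1
    omega
  · refine le_trans ?_ (mul_le_mul_of_nonneg_left hN1' hk0)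
    rw [hkt, Nf_pp, Nf_pp, ← Finset.prod_mul_distrib]
    refine Finset.prod_le_prod (fun P hP => pow_nonneg (by linarith [hN1 P hP]) _)
      fun P hP => ?_
    have h3 : 0 < Nf K P := by linarith [hN1 P hP]
    rw [pow_one, ← Real.rpow_natCast]
    calc Nf K P ^ ((a P : ℕ) : ℝ) ≤ Nf K P ^ (θ * n P + 1) :=
          Real.rpow_le_rpow_of_exponent_le (hN1 P hP) (ha P hP).2.2.1
      _ = Nf K P ^ (θ * n P) * Nf K P := by
          rw [Real.rpow_add h3, Real.rpow_one]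
  · refine le_trans ?_ (mul_le_mul_of_nonneg_left hN1' (Nf_nonneg _))
    rw [hkt, Nf_pp, Nf_pp, ← Finset.prod_mul_distrib]
    refine Finset.prod_le_prod (fun P hP => Real.rpow_nonneg (by linarith [hN1 P hP]) _)
      fun P hP => ?_
    have h3 : 0 < Nf K P := by linarith [hN1 P hP]
    rw [pow_one, ← Real.rpow_natCast]
    calc Nf K P ^ (θ * n P) ≤ Nf K P ^ (((a P : ℕ) : ℝ) + 1) :=
          Real.rpow_le_rpow_of_exponent_le (hN1 P hP) (ha P hP).2.2.2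
      _ = Nf K P ^ ((a P : ℕ) : ℝ) * Nf K P := by
          rw [Real.rpow_add h3, Real.rpow_one]

/-- the part at `s` -/
private lemma part_s (s : Ideal (𝓞 K)) (Y : ℝ) (hs : s ≠ ⊥) (hY : 1 ≤ Y)
    (hfri : ∀ P : Ideal (𝓞 K), P.IsPrime → s ≤ P → Nf K P ≤ Y) (θ : ℝ) (h1 : 0 ≤ θ)
    (h2 : θ ≤ 1) :
    ∃ t : Ideal (𝓞 K), s ≤ t ∧ Nf K t ≤ Nf K s ^ θ ∧ Nf K s ^ θ ≤ Nf K t * Y := by
  classical
  have hs1 := one_le_Nf s hs
  have hX1 : 1 ≤ Nf K s ^ θ := Real.one_le_rpow hs1 h1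
  have hXs : Nf K s ^ θ ≤ Nf K s := by
    calc Nf K s ^ θ ≤ Nf K s ^ (1 : ℝ) := Real.rpow_le_rpow_of_exponent_le hs1 h2
      _ = Nf K s := Real.rpow_one _
  let Q : ℕ → Prop := fun m => ∃ t : Ideal (𝓞 K), s ≤ t ∧ Nf K t ≤ Nf K s ^ θ ∧
    Ideal.absNorm t = m
  have hQ1 : Q 1 := by
    refine ⟨⊤, le_top, ?_, Ideal.absNorm_top⟩
    unfold Nf
    rw [Ideal.absNorm_top, Nat.cast_one]
    exact hX1
  have hQb : ∀ m, Q m → m ≤ Ideal.absNorm s := by
    rintro m ⟨t, hst, -, rfl⟩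
    exact Nat.le_of_dvd (Nat.pos_of_ne_zero fun h0 => hs (Ideal.absNorm_eq_zero_iff.1 h0))
      (Ideal.absNorm_dvd_absNorm_of_le hst)
  have hs1' : 1 ≤ Ideal.absNorm s := hQb 1 hQ1
  obtain ⟨t, hst, htX, htn⟩ := Nat.findGreatest_spec (P := Q) hs1' hQ1
  refine ⟨t, hst, htX, ?_⟩
  have ht : t ≠ ⊥ := ne_of_le hst hs
  obtain ⟨u, hu⟩ := Ideal.dvd_iff_le.2 hst
  by_cases hu1 : u = ⊤
  · rw [hu1, Ideal.mul_top] at hu
    have h3 := one_le_Nf t ht
    rw [← hu]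
    calc Nf K s ^ θ ≤ Nf K s := hXs
      _ = Nf K s * 1 := (mul_one _).symm
      _ ≤ Nf K s * Y := mul_le_mul_of_nonneg_left hY (Nf_nonneg s)
  · obtain ⟨P, hP, huP⟩ := Ideal.exists_le_maximal u hu1
    have hsu : s ≤ u := by
      rw [hu]
      exact Ideal.mul_le_right
    have hPY := hfri P hP.isPrime (hsu.trans huP)
    have hsP : s ≤ t * P := by
      rw [hu]
      exact Ideal.mul_mono_right huP
    by_contra hcon
    have h3 : Nf K (t * P) ≤ Nf K s ^ θ := by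
      rw [Nf_mul]
      exact (mul_le_mul_of_nonneg_left hPY (Nf_nonneg t)).trans (not_le.1 hcon).le
    have h4 : Q (Ideal.absNorm (t * P)) := ⟨t * P, hsP, h3, rfl⟩
    have h5 := Nat.le_findGreatest (hQb _ h4) h4
    rw [← htn, map_mul] at h5
    have h6 : Ideal.absNorm P ≠ 1 := fun h => hP.ne_top (Ideal.absNorm_eq_one_iff.1 h)
    have h7 : Ideal.absNorm (t * P) ≠ 0 := fun h =>
      ne_of_le hsP hs (Ideal.absNorm_eq_zero_iff.1 h)
    rw [map_mul] at h7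
    have h8 : Ideal.absNorm t ≠ 0 := left_ne_zero_of_mul h7
    have h9 : Ideal.absNorm P ≠ 0 := right_ne_zero_of_mul h7
    have h10 : 2 ≤ Ideal.absNorm P := by omega
    have h11 : 1 ≤ Ideal.absNorm t := Nat.one_le_iff_ne_zero.2 h8
    nlinarith

end aux

theorem pf_KP : F_KP := by
  intro K _ _ l s k Y hSK θ h1 h2
  have hsk : s * k ≠ ⊥ := hSK.lk.k_ne
  have hs : s ≠ ⊥ := left_ne_zero_of_mul hsk
  have hk : k ≠ ⊥ := right_ne_zero_of_mul hsk
  obtain ⟨c, hc3, hc6, hcr, hkc, hN1, hN2⟩ := part_k k hk hSK.cub θ h1 h2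
  obtain ⟨t, hst, hM1, hM2⟩ := part_s s Y hs hSK.one hSK.fri θ (by linarith) (by linarith)
  have htk : t ⊔ k = ⊤ := by
    rw [eq_top_iff, ← hSK.cop]
    exact sup_le_sup_right hst k
  have hcs : c ⊔ s = ⊤ := by
    rw [eq_top_iff, ← hSK.cop, sup_comm]
    exact sup_le_sup_right hkc s
  have e1 : c * t ⊔ k = c := by
    refine le_antisymm (sup_le Ideal.mul_le_left hkc) ?_
    calc c = c * (t ⊔ k) := by rw [htk, Ideal.mul_top]
      _ = c * t ⊔ c * k := Ideal.mul_sup _ _ _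
      _ ≤ c * t ⊔ k := sup_le_sup_left Ideal.mul_le_right _
  have e2 : c * t ⊔ s = t := by
    refine le_antisymm (sup_le Ideal.mul_le_right hst) ?_
    calc t = (c ⊔ s) * t := by rw [hcs, Ideal.top_mul]
      _ = c * t ⊔ s * t := Ideal.sup_mul _ _ _
      _ ≤ c * t ⊔ s := sup_le_sup_left Ideal.mul_le_left _
  have hs1 := one_le_Nf s hs
  have hk1 := one_le_Nf k hk
  have e3 : Nf K (s * k) ^ θ = Nf K s ^ θ * Nf K k ^ θ := by
    rw [Nf_mul, Real.mul_rpow (Nf_nonneg s) (Nf_nonneg k)]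
  have hr0 := Nf_nonneg (K := K) k.radical
  have hY0 : 0 ≤ Y := zero_le_one.trans hSK.one
  have hXs : 0 ≤ Nf K s ^ θ := Real.rpow_nonneg (Nf_nonneg s) _
  have hXk : 0 ≤ Nf K k ^ θ := Real.rpow_nonneg (Nf_nonneg k) _
  refine ⟨c * t, ⟨?_, ?_, ?_, ?_, ?_⟩, ?_, ?_⟩
  · rw [mul_comm s k]
    exact Ideal.mul_mono hkc hst
  · exact Ideal.mul_le_left.trans hcr
  · rw [e1]
    exact hc3
  · rw [e1]
    exact hc6
  · rw [e2]
    calc Nf K t ^ 3 ≤ (Nf K s ^ θ) ^ 3 := pow_le_pow_left₀ (Nf_nonneg t) hM1 3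
      _ = Nf K s ^ (θ * 3) := by
          rw [← Real.rpow_natCast, ← Real.rpow_mul (Nf_nonneg s)]
          norm_num
      _ ≤ Nf K s ^ (1 : ℝ) := Real.rpow_le_rpow_of_exponent_le hs1 (by linarith)
      _ = Nf K s := Real.rpow_one _
  · rw [e3, Nf_mul c t]
    calc Nf K c * Nf K t ≤ (Nf K k ^ θ * Nf K k.radical) * Nf K s ^ θ :=
          mul_le_mul hN1 hM1 (Nf_nonneg t) (mul_nonneg hXk hr0)
      _ = Nf K s ^ θ * Nf K k ^ θ * Nf K k.radical := by ring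
  · rw [e3, Nf_mul c t]
    calc Nf K s ^ θ * Nf K k ^ θ ≤ (Nf K t * Y) * (Nf K c * Nf K k.radical) :=
          mul_le_mul hM2 hN2 hXk (mul_nonneg (Nf_nonneg t) hY0)
      _ = Nf K c * Nf K t * (Nf K k.radical * Y) := by ring

end Pool.Agent.H23.DF.KP
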