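import Pool.Agent.H23.DF.Basic

/-!
# DIHEDRAL: bounds for the kernel (KRBr)
-/

set_option autoImplicit false

open MeasureTheory Set Filter
open scoped Real Topology

namespace Pool.Agent.H23.DF

open Pool.Agent.H31.CN Pool.Agent.H89.FM Pool.Agent.H89.FC Pool.Agent.H89.DF

/-- the integral of the majorant -/
noncomputable def I0 : ℝ := ∫ τ : ℝ, Real.cosh τ ^ (-(3 / 8) : ℝ)

theorem I0_nonneg : 0 ≤ I0 :=
  integral_nonneg fun τ => Real.rpow_nonneg (by have := cosh_one τ; linarith) _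

theorem pw1 {K : ℝ → ℂ} {A σ c T : ℝ} (hA : 0 ≤ A) (hσ1 : 3 / 8 ≤ σ) (hσ2 : σ ≤ 5 / 8) (hc : 0 < c)
    (hT : 0 < T) (a b : ℝ) (ha : a = -σ) (hb : b = σ - 1)
    (hK : ∀ r : ℝ, 0 < r → ‖K r‖ ≤ A * (r ^ a + r ^ b) * Real.exp (-(c * r / T)))
    {r : ℝ} (hr : 0 < r) (τ : ℝ) :
    ‖K (r * Real.cosh τ)‖ ≤ A * (r ^ a + r ^ b) * Real.exp (-(c * r / T)) *
      Real.cosh τ ^ (-(3 / 8) : ℝ) := by
  have h1 := cosh_one τ
  have h0 : 0 < Real.cosh τ := by linarith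
  have e : ∀ x : ℝ, x ≤ -(3 / 8) → Real.cosh τ ^ x ≤ Real.cosh τ ^ (-(3 / 8) : ℝ) :=
    fun x hx => Real.rpow_le_rpow_of_exponent_le h1 hx
  have h2 : Real.exp (-(c * (r * Real.cosh τ) / T)) ≤ Real.exp (-(c * r / T)) := by
    refine Real.exp_le_exp.2 (neg_le_neg ?_)
    refine (div_le_div_iff_of_pos_right hT).2 ?_
    have := mul_le_mul_of_nonneg_left h1 (mul_pos hc hr).le
    nlinarith
  have h3 : (r * Real.cosh τ) ^ a + (r * Real.cosh τ) ^ b ≤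
      (r ^ a + r ^ b) * Real.cosh τ ^ (-(3 / 8) : ℝ) := by
    rw [Real.mul_rpow hr.le h0.le, Real.mul_rpow hr.le h0.le, add_mul]
    exact add_le_add (mul_le_mul_of_nonneg_left (e a (by linarith)) (Real.rpow_nonneg hr.le _))
      (mul_le_mul_of_nonneg_left (e b (by linarith)) (Real.rpow_nonneg hr.le _))
  refine (hK _ (mul_pos hr h0)).trans ?_
  have hs1 : 0 ≤ (r * Real.cosh τ) ^ a + (r * Real.cosh τ) ^ b := by positivity
  calc A * ((r * Real.cosh τ) ^ a + (r * Real.cosh τ) ^ b) *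
        Real.exp (-(c * (r * Real.cosh τ) / T))
      ≤ A * ((r ^ a + r ^ b) * Real.cosh τ ^ (-(3 / 8) : ℝ)) * Real.exp (-(c * r / T)) :=
        mul_le_mul (mul_le_mul_of_nonneg_left h3 hA) h2 (Real.exp_pos _).le (by positivity)
    _ = _ := by ring

theorem pw2 {K : ℝ → ℂ} {A σ c T : ℝ} (hA : 0 ≤ A) (hσ1 : 3 / 8 ≤ σ) (hσ2 : σ ≤ 5 / 8) (hc : 0 < c)
    (hT : 0 < T)
    (hK : ∀ r : ℝ, 0 < r → ‖K r‖ ≤ A * (r ^ (-σ - 1) + r ^ (σ - 2)) * Real.exp (-(c * r / T)))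
    {r : ℝ} (hr : 0 < r) (τ : ℝ) :
    ‖((Real.cosh τ : ℝ) : ℂ) * K (r * Real.cosh τ)‖ ≤
      A * (r ^ (-σ - 1) + r ^ (σ - 2)) * Real.exp (-(c * r / T)) *
      Real.cosh τ ^ (-(3 / 8) : ℝ) := by
  have h1 := cosh_one τ
  have h0 : 0 < Real.cosh τ := by linarith
  have h := pw1 (K := fun r => (r : ℂ) * K r) hA hσ1 hσ2 hc hT (-σ) (σ - 1) rfl rfl (by
    intro r hr
    rw [norm_mul, Complex.norm_real, Real.norm_eq_abs, abs_of_pos hr]
    have h2 := mul_le_mul_of_nonneg_left (hK r hr) hr.le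
    refine h2.trans (le_of_eq ?_)
    have e1 : r ^ (-σ) = r ^ (-σ - 1) * r := by
      rw [← Real.rpow_add_one hr.ne']
      congr 1
      ring
    have e2 : r ^ (σ - 1) = r ^ (σ - 2) * r := by
      rw [← Real.rpow_add_one hr.ne']
      congr 1
      ring
    rw [e1, e2]
    ring) hr τ
  have e1 : r ^ (-σ) = r ^ (-σ - 1) * r := by
    rw [← Real.rpow_add_one hr.ne']
    congr 1
    ring
  have e2 : r ^ (σ - 1) = r ^ (σ - 2) * r := by
    rw [← Real.rpow_add_one hr.ne']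
    congr 1
    ring
  simp only [e1, e2] at h
  have h3 : ‖((r * Real.cosh τ : ℝ) : ℂ) * K (r * Real.cosh τ)‖ =
      r * ‖((Real.cosh τ : ℝ) : ℂ) * K (r * Real.cosh τ)‖ := by
    rw [norm_mul, norm_mul, Complex.norm_real, Complex.norm_real, Real.norm_eq_abs,
      Real.norm_eq_abs, abs_of_pos (mul_pos hr h0), abs_of_pos h0]
    ring
  rw [h3] at h
  have h4 : r * ‖((Real.cosh τ : ℝ) : ℂ) * K (r * Real.cosh τ)‖ ≤ r *
      (A * (r ^ (-σ - 1) + r ^ (σ - 2)) * Real.exp (-(c * r / T)) *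
      Real.cosh τ ^ (-(3 / 8) : ℝ)) := h.trans (le_of_eq (by ring))
  exact le_of_mul_le_mul_left h4 hr

theorem abs_part {K K' : ℝ → ℂ} {A σ c T : ℝ} {g : ℝ → ℂ} (hA : 0 ≤ A) (hσ1 : 3 / 8 ≤ σ)
    (hσ2 : σ ≤ 5 / 8) (hc : 0 < c) (hT : 0 < T) (hg : Continuous g) (hg1 : ∀ τ, ‖g τ‖ ≤ 1)
    (hd : ∀ r : ℝ, 0 < r → HasDerivAt K (K' r) r) (hK'c : ContinuousOn K' (Ioi 0))
    (hK : ∀ r : ℝ, 0 < r → ‖K r‖ ≤ A * (r ^ (-σ) + r ^ (σ - 1)) * Real.exp (-(c * r / T)))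
    (hK' : ∀ r : ℝ, 0 < r → ‖K' r‖ ≤ A * (r ^ (-σ - 1) + r ^ (σ - 2)) * Real.exp (-(c * r / T))) :
    ContinuousOn (deriv fun r : ℝ => ∫ τ : ℝ, g τ * K (r * Real.cosh τ)) (Ioi 0) ∧
      ∀ r : ℝ, 0 < r → DifferentiableAt ℝ (fun r : ℝ => ∫ τ : ℝ, g τ * K (r * Real.cosh τ)) r ∧
        ‖∫ τ : ℝ, g τ * K (r * Real.cosh τ)‖ ≤
          I0 * (A * (r ^ (-σ) + r ^ (σ - 1)) * Real.exp (-(c * r / T))) ∧
        ‖deriv (fun r : ℝ => ∫ τ : ℝ, g τ * K (r * Real.cosh τ)) r‖ ≤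
          I0 * (A * (r ^ (-σ - 1) + r ^ (σ - 2)) * Real.exp (-(c * r / T))) := by
  have hcpos : ∀ τ : ℝ, 0 < Real.cosh τ := fun τ => by have := cosh_one τ; linarith
  have hKc : ContinuousOn K (Ioi 0) := fun r hr => (hd r hr).continuousAt.continuousWithinAt
  have hI : Integrable (fun τ : ℝ => Real.cosh τ ^ (-(3 / 8) : ℝ)) := cosh_int (by norm_num)
  have hcK : ∀ r : ℝ, 0 < r → Continuous (fun τ : ℝ => g τ * K (r * Real.cosh τ)) := by
    intro r hr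
    refine hg.mul (hKc.comp_continuous (continuous_const.mul Real.continuous_cosh) ?_)
    intro τ
    exact mul_pos hr (hcpos τ)
  have hcK' : ∀ r : ℝ, 0 < r →
      Continuous (fun τ : ℝ => g τ * (((Real.cosh τ : ℝ) : ℂ) * K' (r * Real.cosh τ))) := by
    intro r hr
    refine hg.mul ((Complex.continuous_ofReal.comp Real.continuous_cosh).mul
      (hK'c.comp_continuous (continuous_const.mul Real.continuous_cosh) ?_))
    intro τ
    exact mul_pos hr (hcpos τ)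
  have hb1 : ∀ r : ℝ, 0 < r → ∀ τ : ℝ, ‖g τ * K (r * Real.cosh τ)‖ ≤
      A * (r ^ (-σ) + r ^ (σ - 1)) * Real.exp (-(c * r / T)) *
        Real.cosh τ ^ (-(3 / 8) : ℝ) := by
    intro r hr τ
    rw [norm_mul]
    refine (mul_le_of_le_one_left (norm_nonneg _) (hg1 τ)).trans ?_
    exact pw1 hA hσ1 hσ2 hc hT _ _ rfl rfl hK hr τ
  have hb2 : ∀ r : ℝ, 0 < r → ∀ τ : ℝ,
      ‖g τ * (((Real.cosh τ : ℝ) : ℂ) * K' (r * Real.cosh τ))‖ ≤
      A * (r ^ (-σ - 1) + r ^ (σ - 2)) * Real.exp (-(c * r / T)) *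
        Real.cosh τ ^ (-(3 / 8) : ℝ) := by
    intro r hr τ
    rw [norm_mul]
    refine (mul_le_of_le_one_left (norm_nonneg _) (hg1 τ)).trans ?_
    exact pw2 hA hσ1 hσ2 hc hT hK' hr τ
  have hint : ∀ r : ℝ, 0 < r → Integrable (fun τ : ℝ => g τ * K (r * Real.cosh τ)) := by
    intro r hr
    exact Integrable.mono' (hI.const_mul _) (hcK r hr).aestronglyMeasurable
      (ae_of_all _ (hb1 r hr))
  -- the uniform bound
  have hb3 : ∀ r₀ : ℝ, 0 < r₀ → ∀ r : ℝ, r₀ / 2 < r → ∀ τ : ℝ,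
      ‖g τ * (((Real.cosh τ : ℝ) : ℂ) * K' (r * Real.cosh τ))‖ ≤
      A * ((r₀ / 2) ^ (-σ - 1) + (r₀ / 2) ^ (σ - 2)) * Real.cosh τ ^ (-(3 / 8) : ℝ) := by
    intro r₀ hr₀ r hr τ
    have hr0 : 0 < r := by linarith
    refine (hb2 r hr0 τ).trans ?_
    have h1 : r ^ (-σ - 1) ≤ (r₀ / 2) ^ (-σ - 1) :=
      Real.rpow_le_rpow_of_nonpos (by linarith) hr.le (by linarith)
    have h2 : r ^ (σ - 2) ≤ (r₀ / 2) ^ (σ - 2) :=
      Real.rpow_le_rpow_of_nonpos (by linarith) hr.le (by linarith)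
    have h3 : Real.exp (-(c * r / T)) ≤ 1 := by
      refine Real.exp_le_one_iff.2 ?_
      have : 0 ≤ c * r / T := by positivity
      linarith
    have h4 : 0 ≤ Real.cosh τ ^ (-(3 / 8) : ℝ) := Real.rpow_nonneg (hcpos τ).le _
    have h5 : 0 ≤ r ^ (-σ - 1) + r ^ (σ - 2) := by positivity
    refine mul_le_mul_of_nonneg_right ?_ h4
    calc A * (r ^ (-σ - 1) + r ^ (σ - 2)) * Real.exp (-(c * r / T))
        ≤ A * (r ^ (-σ - 1) + r ^ (σ - 2)) * 1 :=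
          mul_le_mul_of_nonneg_left h3 (mul_nonneg hA h5)
      _ = A * (r ^ (-σ - 1) + r ^ (σ - 2)) := mul_one _
      _ ≤ _ := mul_le_mul_of_nonneg_left (add_le_add h1 h2) hA
  have hder : ∀ r₀ : ℝ, 0 < r₀ →
      HasDerivAt (fun r : ℝ => ∫ τ : ℝ, g τ * K (r * Real.cosh τ))
        (∫ τ : ℝ, g τ * (((Real.cosh τ : ℝ) : ℂ) * K' (r₀ * Real.cosh τ))) r₀ := by
    intro r₀ hr₀
    have hs : Ioi (r₀ / 2) ∈ 𝓝 r₀ := Ioi_mem_nhds (by linarith)
    refine (hasDerivAt_integral_of_dominated_loc_of_deriv_le (μ := volume)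
      (F := fun (r : ℝ) (τ : ℝ) => g τ * K (r * Real.cosh τ))
      (F' := fun (r : ℝ) (τ : ℝ) => g τ * (((Real.cosh τ : ℝ) : ℂ) * K' (r * Real.cosh τ)))
      (bound := fun τ => A * ((r₀ / 2) ^ (-σ - 1) + (r₀ / 2) ^ (σ - 2)) *
        Real.cosh τ ^ (-(3 / 8) : ℝ)) hs ?_ (hint r₀ hr₀) (hcK' r₀ hr₀).aestronglyMeasurable ?_
        (hI.const_mul _) ?_).2
    · filter_upwards [hs] with r hr
      exact (hcK r (by have := mem_Ioi.1 hr; linarith)).aestronglyMeasurable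
    · exact ae_of_all _ fun τ r hr => hb3 r₀ hr₀ r hr τ
    · refine ae_of_all _ fun τ r hr => ?_
      have hr0 : 0 < r := by have := mem_Ioi.1 hr; linarith
      have h1 : HasDerivAt (fun r : ℝ => r * Real.cosh τ) (Real.cosh τ) r := by
        simpa using (hasDerivAt_id r).mul_const (Real.cosh τ)
      have h2 := (hd _ (mul_pos hr0 (hcpos τ))).scomp r h1
      have h3 := h2.const_mul (g τ)
      simp only [Complex.real_smul] at h3
      exact h3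
  have hderiv : ∀ r : ℝ, 0 < r → deriv (fun r : ℝ => ∫ τ : ℝ, g τ * K (r * Real.cosh τ)) r =
      ∫ τ : ℝ, g τ * (((Real.cosh τ : ℝ) : ℂ) * K' (r * Real.cosh τ)) :=
    fun r hr => (hder r hr).deriv
  refine ⟨?_, fun r hr => ⟨(hder r hr).differentiableAt, ?_, ?_⟩⟩
  · have h1 : ContinuousOn (fun r : ℝ =>
        ∫ τ : ℝ, g τ * (((Real.cosh τ : ℝ) : ℂ) * K' (r * Real.cosh τ))) (Ioi 0) := by
      intro r₀ hr₀
      have hr₀' : 0 < r₀ := hr₀
      have hs : Ioi (r₀ / 2) ∈ 𝓝 r₀ := Ioi_mem_nhds (by linarith)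
      refine ContinuousAt.continuousWithinAt ?_
      refine continuousAt_of_dominated (bound := fun τ => A * ((r₀ / 2) ^ (-σ - 1) +
        (r₀ / 2) ^ (σ - 2)) * Real.cosh τ ^ (-(3 / 8) : ℝ)) ?_ ?_ (hI.const_mul _) ?_
      · filter_upwards [hs] with r hr
        exact (hcK' r (by have := mem_Ioi.1 hr; linarith)).aestronglyMeasurable
      · filter_upwards [hs] with r hr
        exact ae_of_all _ fun τ => hb3 r₀ hr₀' r hr τ
      · refine ae_of_all _ fun τ => ?_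
        have h2 : ContinuousAt K' (r₀ * Real.cosh τ) :=
          hK'c.continuousAt (Ioi_mem_nhds (mul_pos hr₀' (hcpos τ)))
        have h3 : ContinuousAt (fun r : ℝ => K' (r * Real.cosh τ)) r₀ :=
          ContinuousAt.comp (f := fun r : ℝ => r * Real.cosh τ) (g := K') (x := r₀) h2
            (continuousAt_id.mul continuousAt_const)
        exact continuousAt_const.mul (continuousAt_const.mul h3)
    exact h1.congr fun r hr => hderiv r hr
  · have h1 := norm_integral_le_of_norm_le (μ := volume)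
      (f := fun τ : ℝ => g τ * K (r * Real.cosh τ))
      (hI.const_mul (A * (r ^ (-σ) + r ^ (σ - 1)) * Real.exp (-(c * r / T))))
      (ae_of_all _ (hb1 r hr))
    refine h1.trans (le_of_eq ?_)
    rw [integral_const_mul]
    unfold I0
    ring
  · rw [hderiv r hr]
    have h1 := norm_integral_le_of_norm_le (μ := volume)
      (f := fun τ : ℝ => g τ * (((Real.cosh τ : ℝ) : ℂ) * K' (r * Real.cosh τ)))
      (hI.const_mul (A * (r ^ (-σ - 1) + r ^ (σ - 2)) * Real.exp (-(c * r / T))))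
      (ae_of_all _ (hb2 r hr))
    refine h1.trans (le_of_eq ?_)
    rw [integral_const_mul]
    unfold I0
    ring

theorem cG_nonneg (m : ℕ) (t : ℝ) : 0 ≤ cG m t := by
  unfold cG
  positivity

theorem Krr_eq (κ : ℕ) (m : ℤ) (ν : ℝ) (τ₀ s : ℂ) :
    Krr κ m ν τ₀ s = fun r : ℝ => ∫ τ : ℝ, (trr κ m τ *
      Complex.exp (-(((ν * τ : ℝ) : ℂ) * Complex.I))) *
        (fun r : ℝ => Kmc m.natAbs τ₀ s (r : ℂ)) (r * Real.cosh τ) := by
  funext r
  unfold Krr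
  refine integral_congr_ae (ae_of_all _ fun τ => ?_)
  change trr κ m τ * Kmc m.natAbs τ₀ s ((r * Real.cosh τ : ℝ) : ℂ) * _ =
    (trr κ m τ * _) * Kmc m.natAbs τ₀ s ((r * Real.cosh τ : ℝ) : ℂ)
  ring

theorem pf_KRBr (h : T_KRBc) : T_KRBr := by
  obtain ⟨C, k, c, hC, hc, h⟩ := h
  refine ⟨(I0 + 1) * C, k, c, mul_pos (by have := I0_nonneg; linarith) hC, hc, ?_⟩
  intro κ m ν s hs
  have hm : |(m : ℝ)| = (m.natAbs : ℝ) := by
    rw [Nat.cast_natAbs, Int.cast_abs]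
  obtain ⟨hcont, hb⟩ := h m.natAbs s hs
  rw [hm]
  have hσ := abs_le.1 hs
  have hT : 0 < 1 + |s.im| + (m.natAbs : ℝ) := by positivity
  have hA : 0 ≤ C * (1 + |s.im| + (m.natAbs : ℝ)) ^ k * cG m.natAbs s.im :=
    mul_nonneg (by positivity) (cG_nonneg _ _)
  have hmain := abs_part (K := fun r : ℝ => Kmc m.natAbs (tum m.natAbs s.im) s (r : ℂ))
    (K' := deriv fun r : ℝ => Kmc m.natAbs (tum m.natAbs s.im) s (r : ℂ))
    (g := fun τ : ℝ => trr κ m τ * Complex.exp (-(((ν * τ : ℝ) : ℂ) * Complex.I)))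
    (σ := s.re) hA (by linarith [hσ.1]) (by linarith [hσ.2]) hc hT
    ((cont_trr κ m).mul (cont_expi ν)) (fun τ => by
      rw [norm_mul, norm_expi, mul_one]
      exact norm_trr_le κ m τ) (fun r hr => (hb r hr).1.hasDerivAt) hcont
    (fun r hr => (hb r hr).2.1) (fun r hr => (hb r hr).2.2)
  rw [Krr_eq]
  refine ⟨hmain.1, fun r hr => ⟨(hmain.2 r hr).1, ?_, ?_⟩⟩
  · refine (hmain.2 r hr).2.1.trans ?_
    have h1 : 0 ≤ C * (1 + |s.im| + (m.natAbs : ℝ)) ^ k * cG m.natAbs s.im *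
        (r ^ (-s.re) + r ^ (s.re - 1)) * Real.exp (-(c * r / (1 + |s.im| + m.natAbs))) := by
      positivity
    have h2 := mul_le_mul_of_nonneg_right (by linarith : I0 ≤ I0 + 1) h1
    refine h2.trans (le_of_eq (by ring))
  · refine (hmain.2 r hr).2.2.trans ?_
    have h1 : 0 ≤ C * (1 + |s.im| + (m.natAbs : ℝ)) ^ k * cG m.natAbs s.im *
        (r ^ (-s.re - 1) + r ^ (s.re - 2)) * Real.exp (-(c * r / (1 + |s.im| + m.natAbs))) := by
      positivity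
    have h2 := mul_le_mul_of_nonneg_right (by linarith : I0 ≤ I0 + 1) h1
    refine h2.trans (le_of_eq (by ring))

end Pool.Agent.H23.DF
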