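import Pool.Agent.H89.DF.Defs

/-!
# DIHEDRAL: the kernel part, additional targets
-/

set_option autoImplicit false

open MeasureTheory Set Filter
open scoped Real

namespace Pool.Agent.H23.DF

open Pool.Agent.H31.CN Pool.Agent.H89.FM Pool.Agent.H89.FC Pool.Agent.H89.DF

/-- (CRX) the local factor of the least weight. -/
def T_CRX : Prop :=
  ∀ (κ : ℕ) (ν : ℝ) (s : ℂ), κ ≤ 1 → 0 < s.re →
    gM κ s * crr κ κ ν s = Complex.I ^ κ / 2 * (s * (s - 1)) * (π : ℂ) ^ (-(s + κ)) *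
      Complex.Gamma ((s + κ + ν * Complex.I) / 2) * Complex.Gamma ((s + κ - ν * Complex.I) / 2)

/-- (CRH) the local factors are holomorphic in the half plane. -/
def T_CRH : Prop :=
  ∀ (κ : ℕ) (m : ℤ) (ν : ℝ), DifferentiableOn ℂ (crr κ m ν) {s | 0 < s.re}

/-- (CRI) the integrals converge, with a bound which does not depend on the weight. -/
def T_CRI : Prop :=
  ∀ (κ : ℕ) (m : ℤ) (ν : ℝ) (s : ℂ), 0 < s.re →
    Integrable (fun τ : ℝ => trr κ m τ * ((Real.cosh τ : ℝ) : ℂ) ^ (-s) *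
      Complex.exp (-(((ν * τ : ℝ) : ℂ) * Complex.I))) ∧
    (∀ τ : ℝ, ‖trr κ m τ‖ ≤ 1) ∧ ‖crr κ m ν s‖ ≤ ∫ τ : ℝ, Real.cosh τ ^ (-s.re)

/-- (EZ00) the completed Epstein zeta function of weight `0` at `0`. -/
def T_EZ00 : Prop :=
  ∀ (n : ℕ) (L : AddSubgroup (ℤ × ℤ)) (x y : ℝ), 1 ≤ n → L ∈ Ls n → 0 < y → Em 0 0 n L x y = 1

end Pool.Agent.H23.DF
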