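import Pool.Agent.H23.DF.TargetsG

/-!
# Moments of Hecke L-functions, friable conductors: targets for the assembly
-/

set_option autoImplicit false

open NumberField NumberField.InfinitePlace NumberField.Units
  NumberField.Units.dirichletUnitTheorem MeasureTheory Set Filter Complex
open scoped nonZeroDivisors ENNReal

namespace Pool.Agent.H23.DF

open Pool.Agent.H25.HK Pool.Agent.H23.LB Pool.Agent.H23.LC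
open Pool.Agent.H28.RC (Rep ft idl)
open Pool.Agent.H29.DW (dg Rl lf wv Pos Wg cpar Ci om zs rv Wt PrG IsCon)
open Pool.Agent.H29.TC (Gn LC cq dvs AC MC)
open Pool.Agent.H31.SW (EE itg FF HD DB DS dif Pf GG G2 DD PP pF dK pz ps Tf WG)
open Pool.Agent.H31.SX (ND RK Gcd LK)
open Pool.Agent.H27.TM (Cls Spc Sp1 InT)
open Pool.Agent.H23.DM (lg5 h5 Fq Mz cm SQ MP OQ de SpE SpG FP PhZ PY LoC Lab QB Clq)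

/-- (QR) the sum over the residue classes. -/
def F_QR : Prop :=
  ∀ n : ℕ, 0 < n → ∃ B : ℝ, 0 ≤ B ∧ ∀ (ε : ℝ) (p : Bool → ℂ → ℂ), 0 < ε → ε ≤ 1 → Pf p →
    ∃ C : ℝ, 0 ≤ C ∧ ∀ (K : Type) [Field K] [NumberField K], Module.finrank ℚ K = n →
    ∀ (l s k κ : Ideal (𝓞 K)) (Y : ℝ) (M : FI K) (x₀ : K) (y : InfinitePlace K → ℝ)
    (ω : InfinitePlace K → ℂ) (H τ : InfinitePlace K → ℝ) (ι : Type) (J : Finset ι)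
    (bl : ι → ℕ) (η : ι → 𝓞 K ⧸ (s * k) → ℂ) (c : ι → InfinitePlace K → ℂ)
    (cc : ι → K → ℂ) (D E u : ℝ), SK l s k Y → M ≠ 0 →
    Gn (Ideal.span {(2 : 𝓞 K)} * l * (s * k)) M x₀ → Pos ω →
    Kq s k κ → (∀ v, 1 ≤ H v ∧ 1 ≤ τ v) → (∀ j ∈ J, LC (s * k) (η j)) →
    (∀ j ∈ J, Cls τ (c j)) → Lab κ J bl η c H → SpE J η c D → 1 ≤ D → 0 ≤ E →
    (∀ j ∈ J, ∀ x ∈ M, ∀ t ∈ (l : FI K) * M, cc j (x + t) = cc j x) →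
    (∀ j ∈ J, ∀ x ∈ M, ‖cc j x‖ ≤ E) →
    ∑ j ∈ J, ‖∑' x : {x : K // x ∈ M}, cc j x * cq (s * k) (η j) M x₀ x *
        pF (fun v => GG (p (rv v)) (c j v + (v.mult : ℂ) * u)) y ω x‖ ^ 2 ≤
      C * ((E * (Nf K l * Nf K k.radical)) ^ 2 *
        (D * dK K * (Nf K k.radical * Y) * (1 + |u|)) ^ B * (Nf K (s * k) * PP τ) ^ ε *
        QB (s * k) κ τ H ((J.image bl).card : ℝ) *
        ((1 + DD M y / Nf K l) *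
          (1 + DD M y / Nf K l / (Nf K (s * k) * PP τ)) ^ (3 / 2 : ℝ)))

open scoped Classical in
/-- (QI) the bound for the integral over all positions. -/
def F_QI : Prop :=
  ∀ n : ℕ, 0 < n → ∃ B₁ : ℝ, 0 ≤ B₁ ∧ ∀ ε ε' : ℝ, 0 < ε → ε ≤ 1 → 0 < ε' → ε' ≤ ε / 24 →
    ∃ C : ℝ, 0 ≤ C ∧ ∀ (K : Type) [Field K] [NumberField K], Module.finrank ℚ K = n →
    ∀ (ι : Type) [Fintype ι] (M : ι → FI K), Reps K M → ∀ (l s k κ : Ideal (𝓞 K)) (Y : ℝ)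
    (x₀ : ι → K) (H τ : InfinitePlace K → ℝ) (A : Type) (J : Finset A) (bl : A → ℕ)
    (η : A → 𝓞 K ⧸ (s * k) → ℂ) (c : A → InfinitePlace K → ℂ) (X B D E : ℝ) (v : A → ℝ → ℂ)
    (cc : A → ι → K → ℂ) (s₀ : Bool), SK l s k Y →
    (∀ i, Gn (Ideal.span {(2 : 𝓞 K)} * l * (s * k)) (M i) (x₀ i)) → Kq s k κ →
    (∀ v, 1 ≤ H v ∧ 1 ≤ τ v) → (∀ a ∈ J, LC (s * k) (η a)) → (∀ a ∈ J, Cls τ (c a)) →
    Lab κ J bl η c H → SpE J η c D → 1 ≤ D → 1 ≤ X →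
    X ^ 2 ≤ 6 ^ n * (dK K * Nf K l * (Nf K (s * k) * PP τ)) → 0 ≤ B →
    (∀ a ∈ J, Wt ε' X B (v a)) → 0 ≤ E →
    (∀ a ∈ J, ∀ i, ∀ x ∈ M i, ∀ t ∈ (l : FI K) * M i, cc a i (x + t) = cc a i x) →
    (∀ a ∈ J, ∀ i, ∀ x ∈ M i, ‖cc a i x‖ ≤ E) →
    ∑ a ∈ J, (∑ i, ∫⁻ u in Fd K ×ˢ (univ : Set ℝ) ×ˢ An K,
      ENNReal.ofReal ‖∑' x : {x : K // x ∈ M i ∧ x ≠ 0},
        (cc a i x * cq (s * k) (η a) (M i) (x₀ i) x) * v a (Ideal.absNorm (idl K (M i) x)) *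
          pF (fun v => GG (pz (rv v)) (c a v)) (yM K (M i) u.2.1 (zs s₀ u.1))
            (om s₀ u.2.2) x‖) ^ 2 ≤
    ENNReal.ofReal (C * ((B * E * (classNumber K * regulator K)) ^ 2 *
      (D * dK K * (Nf K l * Nf K k.radical * Y)) ^ B₁ * (Nf K (s * k) * PP τ) ^ ε *
        QB (s * k) κ τ H ((J.image bl).card : ℝ)))

/-- (QBP) the first sums. -/
def F_QBP : Prop :=
  ∀ n : ℕ, 0 < n → ∃ B₁ : ℝ, 0 ≤ B₁ ∧ ∀ ε ε' : ℝ, 0 < ε → ε ≤ 1 → 0 < ε' → ε' ≤ ε / 24 →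
    ∃ C : ℝ, 0 ≤ C ∧ ∀ (K : Type) [Field K] [NumberField K], Module.finrank ℚ K = n →
    ∀ (l s k κ : Ideal (𝓞 K)) (Y : ℝ), SK l s k Y → Kq s k κ →
    ∀ η : HG K (l * (s * k)) → 𝓞 K ⧸ (s * k) → ℂ, LoC K l (s * k) η →
    ∀ (H τ : InfinitePlace K → ℝ) (S : Finset (HG K (l * (s * k)) × ℝ))
    (bl : HG K (l * (s * k)) × ℝ → ℕ) (B D : ℝ) (v : HG K (l * (s * k)) × ℝ → ℝ → ℂ),
    (∀ v, 1 ≤ H v ∧ 1 ≤ τ v) → (∀ q ∈ S, PrG (s * k) q.1) →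
    (∀ q ∈ S, Cls τ (Pool.Agent.H27.TM.cq q)) →
    Lab κ S bl (fun q => η q.1) Pool.Agent.H27.TM.cq H →
    SpE S (fun q => η q.1) Pool.Agent.H27.TM.cq D → 1 ≤ D → 0 ≤ B →
    (∀ q ∈ S, Wt ε' (Real.sqrt (|(discr K : ℝ)| * Nf K (l * (s * k)) *
      Ci q.1.k q.1.ν q.2)) B (v q)) →
    ∑ q ∈ S, ‖∑' J : NZI K, q.1.ψ J.1 * v q (Ideal.absNorm J.1) *
      (Ideal.absNorm J.1 : ℂ) ^ (-(q.2 * I : ℂ))‖ ^ 2 ≤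
    C * ((B * (classNumber K * regulator K)) ^ 2 *
      (D * dK K * (Nf K l * Nf K k.radical * Y)) ^ B₁ * (Nf K (s * k) * PP τ) ^ ε *
        QB (s * k) κ τ H ((S.image bl).card : ℝ))

/-- (QBQ) the dual sums. -/
def F_QBQ : Prop :=
  ∀ n : ℕ, 0 < n → ∃ B₁ : ℝ, 0 ≤ B₁ ∧ ∀ ε ε' : ℝ, 0 < ε → ε ≤ 1 → 0 < ε' → ε' ≤ ε / 24 →
    ∃ C : ℝ, 0 ≤ C ∧ ∀ (K : Type) [Field K] [NumberField K], Module.finrank ℚ K = n →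
    ∀ (l s k κ : Ideal (𝓞 K)) (Y : ℝ), SK l s k Y → Kq s k κ →
    ∀ η : HG K (l * (s * k)) → 𝓞 K ⧸ (s * k) → ℂ, LoC K l (s * k) η →
    ∀ (Y' : Sys K (l * (s * k))) (H τ : InfinitePlace K → ℝ)
    (S : Finset (HG K (l * (s * k)) × ℝ)) (bl : HG K (l * (s * k)) × ℝ → ℕ) (B D : ℝ)
    (v : HG K (l * (s * k)) × ℝ → ℝ → ℂ), (∀ v, 1 ≤ H v ∧ 1 ≤ τ v) →
    (∀ q ∈ S, PrG (s * k) q.1) → (∀ q ∈ S, Cls τ (Pool.Agent.H27.TM.cq q)) →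
    Lab κ S bl (fun q => η q.1) Pool.Agent.H27.TM.cq H →
    SpE S (fun q => η q.1) Pool.Agent.H27.TM.cq D → 1 ≤ D → 0 ≤ B →
    (∀ q ∈ S, Wt ε' (Real.sqrt (|(discr K : ℝ)| * Nf K (l * (s * k)) *
      Ci q.1.k q.1.ν q.2)) B (v q)) →
    ∑ q ∈ S, ‖∑' J : NZI K, cd Y' q.1 J.1 * v q (Ideal.absNorm J.1) *
      (Ideal.absNorm J.1 : ℂ) ^ (q.2 * I : ℂ)‖ ^ 2 ≤
    C * ((B * (classNumber K * regulator K)) ^ 2 *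
      (D * dK K * (Nf K l * Nf K k.radical * Y)) ^ B₁ * (Nf K (s * k) * PP τ) ^ ε *
        QB (s * k) κ τ H ((S.image bl).card : ℝ))

/-- (QL) the mean square of a class over a family of boxes. -/
def F_QL : Prop :=
  ∀ n : ℕ, 0 < n → ∃ B : ℝ, 0 ≤ B ∧ ∀ ε : ℝ, 0 < ε → ε ≤ 1 → ∃ C : ℝ, 0 ≤ C ∧
    ∀ (K : Type) [Field K] [NumberField K], Module.finrank ℚ K = n →
    ∀ (l s k κ : Ideal (𝓞 K)) (Y : ℝ), SK l s k Y → Kq s k κ →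
    ∀ (Y' : Sys K (l * (s * k))) (L : HG K (l * (s * k)) → ℂ → ℂ),
    (∀ χ, IsL Y' χ (L χ)) → ∀ (H τ : InfinitePlace K → ℝ)
    (S : Finset (HG K (l * (s * k)) × ℝ)) (bl : HG K (l * (s * k)) × ℝ → ℕ),
    (∀ v, 1 ≤ H v ∧ 1 ≤ τ v) → (∀ q ∈ S, PrG (s * k) q.1) →
    (∀ q ∈ S, Cls τ (Pool.Agent.H27.TM.cq q)) → Sp1 S →
    (∀ p ∈ S, ∀ q ∈ S, bl p = bl q → Clq κ H p q) →
    ∑ q ∈ S, ‖L q.1 (1 / 2 + q.2 * I)‖ ^ 2 ≤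
      C * ((dK K * (Nf K l * Nf K k.radical * Y)) ^ B * (Nf K (s * k) * PP τ) ^ ε *
        QB (s * k) κ τ H ((S.image bl).card : ℝ))

/-- (QT) the mean square over a family of boxes. -/
def F_QT : Prop :=
  ∀ n : ℕ, 0 < n → ∃ B : ℝ, 0 ≤ B ∧ ∀ ε : ℝ, 0 < ε → ε ≤ 1 → ∃ C : ℝ, 0 ≤ C ∧
    ∀ (K : Type) [Field K] [NumberField K], Module.finrank ℚ K = n →
    ∀ (l s k κ : Ideal (𝓞 K)) (Y : ℝ), SK l s k Y → Kq s k κ →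
    ∀ (Y' : Sys K (l * (s * k))) (L : HG K (l * (s * k)) → ℂ → ℂ),
    (∀ χ, IsL Y' χ (L χ)) → ∀ (H T : InfinitePlace K → ℝ)
    (S : Finset (HG K (l * (s * k)) × ℝ)) (bl : HG K (l * (s * k)) × ℝ → ℕ),
    (∀ v, 1 ≤ H v ∧ H v ^ 3 ≤ T v) → (∀ q ∈ S, PrG (s * k) q.1) → InT T S → Sp1 S →
    (∀ p ∈ S, ∀ q ∈ S, bl p = bl q → Clq κ H p q) →
    ∑ q ∈ S, ‖L q.1 (1 / 2 + q.2 * I)‖ ^ 2 ≤
      C * ((dK K * (Nf K l * Nf K k.radical * Y)) ^ B * (Nf K (s * k) * PP T) ^ ε *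
        (((S.image bl).card : ℝ) * (Nf K κ * PP H) + ((S.image bl).card : ℝ) ^ (1 / 2 : ℝ) *
          (Nf K (s * k) * PP T / (Nf K κ * PP H) ^ 2)))

/-- (TW) the twelfth moment. -/
def F_TW : Prop :=
  ∀ n : ℕ, 0 < n → ∃ B : ℝ, 0 ≤ B ∧ ∀ ε : ℝ, 0 < ε → ε ≤ 1 → ∃ C : ℝ, 0 ≤ C ∧
    ∀ (K : Type) [Field K] [NumberField K], Module.finrank ℚ K = n →
    ∀ (l s k : Ideal (𝓞 K)) (Y : ℝ), SK l s k Y → ∀ (Y' : Sys K (l * (s * k)))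
    (L : HG K (l * (s * k)) → ℂ → ℂ), (∀ χ, IsL Y' χ (L χ)) →
    ∀ (T : InfinitePlace K → ℝ) (S : Finset (HG K (l * (s * k)) × ℝ)),
    (∀ v, 1 ≤ T v) → (∀ q ∈ S, PrG (s * k) q.1) → InT T S → Sp1 S →
    ∑ q ∈ S, ‖L q.1 (1 / 2 + q.2 * I)‖ ^ 12 ≤
      C * ((dK K * (Nf K l * Nf K k.radical * Y)) ^ B * (Nf K (s * k) * PP T) ^ (2 + ε))

/-- (QH) the moments of the orders between `2` and `12` over a family of boxes. -/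
def F_QH : Prop :=
  ∀ n : ℕ, 0 < n → ∃ B : ℝ, 0 ≤ B ∧ ∀ ε : ℝ, 0 < ε → ε ≤ 1 → ∃ C : ℝ, 0 ≤ C ∧
    ∀ (K : Type) [Field K] [NumberField K], Module.finrank ℚ K = n →
    ∀ (l s k κ : Ideal (𝓞 K)) (Y : ℝ), SK l s k Y → Kq s k κ →
    ∀ (Y' : Sys K (l * (s * k))) (L : HG K (l * (s * k)) → ℂ → ℂ),
    (∀ χ, IsL Y' χ (L χ)) → ∀ (H T : InfinitePlace K → ℝ)
    (S : Finset (HG K (l * (s * k)) × ℝ)) (bl : HG K (l * (s * k)) × ℝ → ℕ) (p : ℝ),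
    (∀ v, 1 ≤ H v ∧ H v ^ 3 ≤ T v) → (∀ q ∈ S, PrG (s * k) q.1) → InT T S → Sp1 S →
    (∀ p ∈ S, ∀ q ∈ S, bl p = bl q → Clq κ H p q) → 2 ≤ p → p ≤ 12 →
    ∑ q ∈ S, ‖L q.1 (1 / 2 + q.2 * I)‖ ^ p ≤
      C * ((dK K * (Nf K l * Nf K k.radical * Y)) ^ B *
        (Nf K (s * k) * PP T) ^ ((p - 2) / 5 + ε) *
        (((S.image bl).card : ℝ) * (Nf K κ * PP H) + ((S.image bl).card : ℝ) ^ (1 / 2 : ℝ) *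
          (Nf K (s * k) * PP T / (Nf K κ * PP H) ^ 2)) ^ ((12 - p) / 10))

/-- (FI) the theorem: `R` boxes and cosets, the orders between `2` and `12`. -/
def F_FI : Prop :=
  ∀ m : ℕ, 1 ≤ m → ∃ B : ℝ, ∀ ε : ℝ, 0 < ε → ∃ C : ℝ, ∀ (K : Type) [Field K] [NumberField K],
    Module.finrank ℚ K = m → ∀ (l s k : Ideal (𝓞 K)) (Y : ℝ), SK l s k Y →
    ∃ L : HG K (l * (s * k)) → ℂ → ℂ, (∀ χ : HG K (l * (s * k)), IsCon χ (L χ)) ∧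
    ∀ (p : ℝ) (T H : InfinitePlace K → ℝ) (κ : Ideal (𝓞 K)) (R : ℕ)
      (S : Finset (HG K (l * (s * k)) × ℝ)) (bl : HG K (l * (s * k)) × ℝ → ℕ),
      2 ≤ p → p ≤ 12 → (∀ v, 1 ≤ T v) → (∀ q ∈ S, PrG (s * k) q.1) →
      (∀ p ∈ S, ∀ q ∈ S, p.1 = q.1 → p.2 ≠ q.2 → 1 ≤ |p.2 - q.2|) →
      (∀ q ∈ S, ∀ v : InfinitePlace K, 1 + |q.2 - q.1.ν v| + |(q.1.k v : ℝ)| ≤ T v) →
      (p < 12 → (∀ v, 1 ≤ H v ∧ H v ^ 3 ≤ T v) ∧ Kq s k κ ∧ (∀ q ∈ S, bl q < R) ∧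
        ∀ p ∈ S, ∀ q ∈ S, bl p = bl q → (∀ v : InfinitePlace K,
          |(p.2 - p.1.ν v) - (q.2 - q.1.ν v)| + |(p.1.k v : ℝ) - q.1.k v| ≤ H v) ∧
          ∀ a : 𝓞 K, a ≠ 0 → a - 1 ∈ l * κ →
            p.1.ψ (Ideal.span {a}) * (ag q.1.k (a : K) * ph q.1.ν (a : K)) =
              q.1.ψ (Ideal.span {a}) * (ag p.1.k (a : K) * ph p.1.ν (a : K))) →
      ∑ q ∈ S, ‖L q.1 (1 / 2 + q.2 * I)‖ ^ p ≤
        C * (|(discr K : ℝ)| * Ideal.absNorm l * Ideal.absNorm k.radical * Y) ^ B *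
          (Ideal.absNorm (s * k) * ∏ v, T v ^ v.mult) ^ ((p - 2) / 5 + ε) *
          (R * (Ideal.absNorm κ * ∏ v, H v ^ v.mult) +
            (R : ℝ) ^ (1 / 2 : ℝ) * (Ideal.absNorm (s * k) * ∏ v, T v ^ v.mult) /
              (Ideal.absNorm κ * ∏ v, H v ^ v.mult) ^ 2) ^ ((12 - p) / 10)

end Pool.Agent.H23.DF
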