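import Pool.Agent.H23.BG.TargetsW

/-!
# The bound of Weil for two characters: targets

The sums `∑_y χ(y + x + π) conj χ(y + x - π) conj ψ(y + π) ψ(y - π)`.
-/

set_option autoImplicit false

open Polynomial

namespace Pool.Agent.H23.DF

open Pool.Agent.H23.BG (am sm)

/-- the multiplicative function of the character sum -/
noncomputable def m4 {F : Type} [Field F] (χ ψ : MulChar F ℂ) (π x : F) (g : F[X]) : ℂ :=
  χ (g.eval (-(x + π))) * (starRingEnd ℂ) (χ (g.eval (-(x - π)))) *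
    ((starRingEnd ℂ) (ψ (g.eval (-π))) * ψ (g.eval π))

/-- the summand over an extension -/
noncomputable def n4 {F : Type} [Field F] {E : Type} [Field E] [Algebra F E] (χ ψ : MulChar F ℂ)
    (π x : F) (y : E) : ℂ :=
  χ (Algebra.norm F (y + algebraMap F E (x + π))) *
    (starRingEnd ℂ) (χ (Algebra.norm F (y + algebraMap F E (x - π)))) *
    ((starRingEnd ℂ) (ψ (Algebra.norm F (y + algebraMap F E π))) *
      ψ (Algebra.norm F (y - algebraMap F E π)))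

/-- (H9) elements of norm one. -/
def V_H9 : Prop :=
  ∀ (F : Type) [Field F] [Fintype F] [Fintype (MulChar F ℂ)] (E : Type) [Field E] [Fintype E]
    [Algebra F E] (a b : E), b ≠ 0 →
    ∑ ψ : MulChar F ℂ, (starRingEnd ℂ) (ψ (Algebra.norm F a)) * ψ (Algebra.norm F b) =
      (Nat.card {z : E // z ≠ 0 ∧ z ^ (Fintype.card F - 1) * b = a} : ℂ)

/-- (TK) the sum over all characters `ψ`. -/
def V_TK : Prop :=
  ∀ (F : Type) [Field F] [Fintype F] [Fintype (MulChar F ℂ)] (χ : MulChar F ℂ) (π x : F),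
    χ ≠ 1 → (2 : F) ≠ 0 → π ≠ 0 → x ≠ 0 →
    ∃ (C : ℝ) (k₀ : ℕ), 0 ≤ C ∧ 1 ≤ k₀ ∧ ∀ (E : Type) [Field E] [Fintype E] [Algebra F E]
    (χ' : MulChar E ℂ), k₀ ∣ Module.finrank F E → orderOf χ' = orderOf χ →
    (∀ x : E, χ' x = χ (Algebra.norm F x)) →
    ‖∑ ψ : MulChar F ℂ, ∑ y : E, n4 χ ψ π x y‖ ≤ C * Real.sqrt (Fintype.card E)

/-- (LX) the function `m4`. -/
def V_LX : Prop :=
  ∀ (F : Type) [Field F] [Fintype F] (χ ψ : MulChar F ℂ) (π x : F),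
    (m4 χ ψ π x 1 = 1 ∧ ∀ g h : F[X], g.Monic → h.Monic →
      m4 χ ψ π x (g * h) = m4 χ ψ π x g * m4 χ ψ π x h) ∧
    ∀ (E : Type) [Field E] [Fintype E] [Algebra F E] (y : E),
      m4 χ ψ π x (minpoly F y) ^ (Module.finrank F E / (minpoly F y).natDegree) =
        n4 χ ψ π x y

/-- (VA) the coefficients of the `L`-function vanish. -/
def V_VA : Prop :=
  ∀ (F : Type) [Field F] [Fintype F] (χ ψ : MulChar F ℂ) (π x : F), χ ≠ 1 → (2 : F) ≠ 0 →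
    π ≠ 0 → x ≠ 0 → am F (m4 χ ψ π x) 0 = 1 ∧ ∀ n : ℕ, 4 ≤ n → am F (m4 χ ψ π x) n = 0

/-- (PL) from a bound for the sums of the power sums to the bound of Weil. -/
def V_PL : Prop :=
  ∀ (ι : Type) [Fintype ι] (a S : ι → ℕ → ℂ) (q C : ℝ) (k₀ : ℕ), 1 ≤ q → 1 ≤ k₀ →
    (∀ i, a i 0 = 1) → (∀ i, ∀ n, 4 ≤ n → a i n = 0) →
    (∀ i, ∀ n : ℕ, 1 ≤ n → (n : ℂ) * a i n = ∑ k ∈ Finset.Icc 1 n, S i k * a i (n - k)) →
    (∀ k : ℕ, 1 ≤ k → k₀ ∣ k → ‖∑ i, S i k‖ ≤ C * q ^ ((k : ℝ) / 2)) →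
    ∀ i, ‖S i 1‖ ≤ 3 * Real.sqrt q

/-- (MY) the bound of Weil for two characters. -/
def V_MY : Prop :=
  ∀ (F : Type) [Field F] [Fintype F] (χ ψ : MulChar F ℂ) (π x : F), χ ≠ 1 → (2 : F) ≠ 0 →
    π ≠ 0 → x ≠ 0 →
    ‖∑ y : F, χ (y + (x + π)) * (starRingEnd ℂ) (χ (y + (x - π))) *
      ((starRingEnd ℂ) (ψ (y + π)) * ψ (y - π))‖ ≤ 3 * Real.sqrt (Fintype.card F)

end Pool.Agent.H23.DF
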