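import Pool.Agent.H23.DF.Defs
import Pool.Agent.H23.DF.TargetsW

/-!
# Moments of Hecke L-functions, friable conductors: targets about ideals and characters
-/

set_option autoImplicit false

open NumberField NumberField.InfinitePlace NumberField.Units
  NumberField.Units.dirichletUnitTheorem MeasureTheory Set Filter Complex
open scoped nonZeroDivisors ENNReal

namespace Pool.Agent.H23.DF

open Pool.Agent.H25.HK Pool.Agent.H23.LB Pool.Agent.H23.LC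
open Pool.Agent.H28.RC (Rep ft idl)
open Pool.Agent.H29.DW (dg Rl lf wv Pos Wg cpar Ci om zs rv Wt PrG IsCon)
open Pool.Agent.H29.TC (Gn LC cq dvs AC MC)
open Pool.Agent.H31.SW (EE itg FF HD DB DS dif Pf GG G2 DD PP pF dK pz ps Tf WG)
open Pool.Agent.H31.SX (ND RK Gcd LK)
open Pool.Agent.H27.TM (Sh S4 lo Maj G3 kp El Cr Am mf Dl mc Ep Cls Spc bt th1)
open Pool.Agent.H23.DM (lg5 h5 Fq Mz cm SQ MP OQ de SpE SpG FP PhZ PY LoC Lab QB Clq)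

/-! ### Complete sums -/

/-- (LP) the sums modulo a prime. -/
def F_LP : Prop :=
  ∀ (K : Type) [Field K] [NumberField K] (P : Ideal (𝓞 K)), P.IsPrime → P ≠ ⊥ →
    (2 : 𝓞 K) ∉ P → ∀ [Fintype (𝓞 K ⧸ P)] (η η' : 𝓞 K ⧸ P → ℂ) (π : 𝓞 K ⧸ P), LC P η →
    LC P η' → π ≠ 0 →
    (∀ θ : 𝓞 K ⧸ P → ℂ, AC θ →
      ‖∑ Y, η (Y + π) * (starRingEnd ℂ) (η (Y - π)) * θ Y‖ ≤ 2 * Real.sqrt (Nf K P)) ∧
    ‖∑ Y, η (Y + π) * (starRingEnd ℂ) (η (Y - π))‖ ≤ 1 ∧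
    (∀ x, x ≠ 0 → ‖∑ Y, η (Y + x + π) * (starRingEnd ℂ) (η (Y + x - π)) *
      (starRingEnd ℂ) (η' (Y + π) * (starRingEnd ℂ) (η' (Y - π)))‖ ≤
        3 * Real.sqrt (Nf K P)) ∧
    (η ≠ η' → ‖∑ Y, η (Y + π) * (starRingEnd ℂ) (η (Y - π)) *
      (starRingEnd ℂ) (η' (Y + π) * (starRingEnd ℂ) (η' (Y - π)))‖ ≤ 1)

/-- (LS) the sums modulo a squarefree ideal. -/
def F_LS : Prop :=
  ∀ (K : Type) [Field K] [NumberField K] (s : Ideal (𝓞 K)), s ≠ ⊥ → s.radical = s →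
    Ideal.span {(2 : 𝓞 K)} ⊔ s = ⊤ → ∀ [Fintype (𝓞 K ⧸ s)] (η η' : 𝓞 K ⧸ s → ℂ)
    (π : 𝓞 K ⧸ s), LC s η → LC s η' → IsUnit π →
    (∀ θ : 𝓞 K ⧸ s → ℂ, AC θ →
      ‖∑ Y, η (Y + π) * (starRingEnd ℂ) (η (Y - π)) * θ Y‖ ≤
        (dvs K s).card * Real.sqrt (Nf K s)) ∧
    ‖∑ Y, η (Y + π) * (starRingEnd ℂ) (η (Y - π))‖ ≤ 1 ∧
    (∀ x : 𝓞 K, ‖∑ Y, η (Y + Ideal.Quotient.mk s x + π) *
      (starRingEnd ℂ) (η (Y + Ideal.Quotient.mk s x - π)) *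
      (starRingEnd ℂ) (η' (Y + π) * (starRingEnd ℂ) (η' (Y - π)))‖ ≤
        (dvs K s).card ^ 2 * Real.sqrt (Nf K s * Nf K (s ⊔ Ideal.span {x}))) ∧
    ∀ γ : 𝓞 K, (∀ P κ' : Ideal (𝓞 K), P.IsPrime → s = κ' * P →
      (γ ∈ P ↔ ∀ t ∈ κ', η (Ideal.Quotient.mk s (1 + t)) = η' (Ideal.Quotient.mk s (1 + t)))) →
      ‖∑ Y, η (Y + π) * (starRingEnd ℂ) (η (Y - π)) *
        (starRingEnd ℂ) (η' (Y + π) * (starRingEnd ℂ) (η' (Y - π)))‖ ≤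
          Nf K (s ⊔ Ideal.span {γ})

/-- (SX) the components of a primitive character. -/
def F_SX : Prop :=
  ∀ (K : Type) [Field K] [NumberField K] (a b : Ideal (𝓞 K)), a ≠ ⊥ → b ≠ ⊥ → a ⊔ b = ⊤ →
    ∀ η : 𝓞 K ⧸ (a * b) → ℂ, LC (a * b) η →
    ∃ (η₁ : 𝓞 K ⧸ a → ℂ) (η₂ : 𝓞 K ⧸ b → ℂ), LC a η₁ ∧ LC b η₂ ∧
      ∀ Y : 𝓞 K, η (Ideal.Quotient.mk (a * b) Y) =
        η₁ (Ideal.Quotient.mk a Y) * η₂ (Ideal.Quotient.mk b Y)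

/-- (CT) the Chinese remainder theorem for Fourier transforms. -/
def F_CT : Prop :=
  ∀ (K : Type) [Field K] [NumberField K] (a b : Ideal (𝓞 K)), a ≠ ⊥ → b ≠ ⊥ → a ⊔ b = ⊤ →
    ∃ u₁ u₂ : 𝓞 K, u₁ ∈ b ∧ u₂ ∈ a ∧ u₁ + u₂ = 1 ∧ ∀ L : FI K, L ≠ 0 →
    (∀ y ∈ du K (((a * b : Ideal (𝓞 K)) : FI K) * L),
      (u₁ : K) * y ∈ du K ((a : FI K) * L) ∧ (u₂ : K) * y ∈ du K ((b : FI K) * L)) ∧
    ∀ f₁ f₂ : K → ℂ, (∀ x ∈ L, ∀ t ∈ (a : FI K) * L, f₁ (x + t) = f₁ x) →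
      (∀ x ∈ L, ∀ t ∈ (b : FI K) * L, f₂ (x + t) = f₂ x) →
      ∀ X X₁ X₂ : Finset K, Rep K (a * b) L X → Rep K a L X₁ → Rep K b L X₂ →
      ∀ y ∈ du K (((a * b : Ideal (𝓞 K)) : FI K) * L),
        ft K X (fun x => f₁ x * f₂ x) y = ft K X₁ f₁ (u₁ * y) * ft K X₂ f₂ (u₂ * y)

/-! ### Ideals and frequencies -/

/-- (KP) the ideals of the cosets exist. -/
def F_KP : Prop :=
  ∀ (K : Type) [Field K] [NumberField K] (l s k : Ideal (𝓞 K)) (Y : ℝ), SK l s k Y →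
    ∀ θ : ℝ, 1 / 6 ≤ θ → θ ≤ 1 / 3 → ∃ κ : Ideal (𝓞 K), Kq s k κ ∧
      Nf K κ ≤ Nf K (s * k) ^ θ * Nf K k.radical ∧
      Nf K (s * k) ^ θ ≤ Nf K κ * (Nf K k.radical * Y)

/-- (CH) the chain exists. -/
def F_CH : Prop :=
  ∀ (K : Type) [Field K] [NumberField K] (l s k κ : Ideal (𝓞 K)) (Y : ℝ), SK l s k Y →
    Kq s k κ → ∃ b κ₃ b₃ : Ideal (𝓞 K), Cn s k κ b κ₃ b₃ Y ∧ κ ≠ ⊥ ∧ b ≠ ⊥ ∧ κ₃ ≠ ⊥ ∧
      b₃ ≠ ⊥ ∧ Nf K (s * k) = Nf K κ * Nf K b ∧ Nf K (s * k) = Nf K κ₃ * Nf K b₃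

/-- (ID) the ideals of a class of half differences. -/
def F_ID : Prop :=
  ∀ (K : Type) [Field K] [NumberField K] (l s k κ b κ₃ b₃ e k' se s' : Ideal (𝓞 K)) (Y : ℝ),
    SK l s k Y → Cn s k κ b κ₃ b₃ Y → k = e * k' → s = se * s' → e ≤ κ ⊔ k → se ≤ κ ⊔ s →
    e ≠ ⊥ ∧ k' ≠ ⊥ ∧ se ≠ ⊥ ∧ s' ≠ ⊥ ∧ se ⊔ s' * k = ⊤ ∧ s'.radical = s' ∧
    Nf K k = Nf K e * Nf K k' ∧ Nf K s = Nf K se * Nf K s' ∧
    Nf K (s * k) = Nf K s * Nf K k ∧ Nf K (s' * k') = Nf K s' * Nf K k' ∧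
    Nf K κ ≤ Nf K e * Nf K se ∧ Nf K (s' ⊔ κ₃) ≤ Nf K se ^ 2 * Y ∧
    Nf K k' ≤ Nf K (k.radical ⊓ k') ∧ Nf K (k.radical ⊓ k') ≤ Nf K k.radical * Nf K k' ∧
    Nf K ((k.radical ⊓ k') * s') = Nf K (k.radical ⊓ k') * Nf K s' ∧
    (∀ γ ∈ b₃, Nf K k' ≤ Nf K e ^ 2 * Nf K (k' ⊔ Ideal.span {γ})) ∧
    (∃ s'' : Ideal (𝓞 K), s' = (s' ⊔ κ₃) * s'' ∧ b₃ ≤ s'') ∧
    ∃ c : Ideal (𝓞 K), (∀ x : 𝓞 K, x ∈ c ↔ ∀ t ∈ k.radical, x * t ∈ k') ∧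
      Nf K k' ≤ Nf K c * Nf K k.radical

open scoped Classical in
/-- (FN) frequencies and labels exist. -/
def F_FN : Prop :=
  ∀ (K : Type) [Field K] [NumberField K] (l s k κ₀ : Ideal (𝓞 K)) (Y : ℝ), SK l s k Y →
    k ≤ κ₀ → κ₀ ^ 6 ≤ k → ∀ (ι : Type) (J : Finset ι) (η : ι → 𝓞 K ⧸ (s * k) → ℂ),
    (∀ j ∈ J, LC (s * k) (η j)) → ∃ (θ : 𝓞 K ⧸ k → ℂ) (γ : ι → 𝓞 K), FN s k κ₀ θ J η γ

/-! ### The transforms of the midpoints -/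

open scoped Classical in
/-- (SV) the part of the modulus which divides the half differences is removed. -/
def F_SV : Prop :=
  ∀ (K : Type) [Field K] [NumberField K] (l s k κ₀ se s' : Ideal (𝓞 K)) (Y : ℝ)
    (θ : 𝓞 K ⧸ k → ℂ) (M : FI K) (x₀ ρ : K) (ι : Type) (J : Finset ι)
    (η : ι → 𝓞 K ⧸ (s * k) → ℂ) (γ : ι → 𝓞 K), SK l s k Y → FP l (s * k) M x₀ → k ≤ κ₀ →
    FN s k κ₀ θ J η γ → ρ ∈ M → s = se * s' →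
    ∃ (ηh : ι → 𝓞 K ⧸ (s' * k) → ℂ) (ρg xg : Ideal (𝓞 K) → K) (μ : Ideal (𝓞 K) → ℂ),
      FN s' k κ₀ θ J ηh γ ∧ FP l (s' * k) M x₀ ∧ (∀ g, ‖μ g‖ ≤ 1) ∧
      (∀ g f : Ideal (𝓞 K), se = g * f → FP l (s' * k) ((g : FI K) * M) (xg g) ∧
        ρg g ∈ (g : FI K) * M ∧
        ρg g - ρ ∈ ((l * (s' * k) : Ideal (𝓞 K)) : FI K) * M ∧
        xg g - x₀ ∈ ((l * (s' * k) : Ideal (𝓞 K)) : FI K) * M) ∧
      ∀ δ : K, 2 * δ ∈ ((l * se : Ideal (𝓞 K)) : FI K) * M → ∀ u ∈ M, ∀ j ∈ J,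
        cm l k.radical M ρ δ (cq (s * k) (η j) M x₀) u =
          ∑ g ∈ dvs K se, μ g * (if u ∈ (g : FI K) * M then
            cm l k.radical ((g : FI K) * M) (ρg g) δ
              (cq (s' * k) (ηh j) ((g : FI K) * M) (xg g)) u else 0)

/-- (TR) the transport of the sum over the midpoints to the lattice `2 (e f)⁻¹`. -/
def F_TR : Prop :=
  ∀ (K : Type) [Field K] [NumberField K] (l s' k e k' f : Ideal (𝓞 K)) (M : FI K)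
    (x₀ ρ δ : K) (π σ σ' X₀ Y₀ : 𝓞 K) (y₂ : K), FP l (s' * k) M x₀ → s' ⊔ k = ⊤ →
    k = e * k' → PY (s' * k) e (s' * k') π y₂ → Gn (s' * k) (Mz K (e * f)) y₂ → f ≠ ⊥ →
    f ⊔ l * (s' * k) = ⊤ → e ≤ k.radical → ρ ∈ M →
    ρ - (X₀ : K) * x₀ ∈ ((s' * k : Ideal (𝓞 K)) : FI K) * M →
    2 * δ ∈ ((l * (e * f) : Ideal (𝓞 K)) : FI K) * M → σ * σ' - 1 ∈ s' * k →
    δ - ((σ * π : 𝓞 K) : K) * x₀ ∈ ((s' * k : Ideal (𝓞 K)) : FI K) * M →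
    Y₀ - σ' * X₀ ∈ k.radical →
    (∀ η : 𝓞 K ⧸ (s' * k) → ℂ, MC η → ∀ x ∈ M,
      ∀ t ∈ ((l * ((k.radical ⊓ k') * s') : Ideal (𝓞 K)) : FI K) * M,
      cm l k.radical M ρ δ (cq (s' * k) η M x₀) (x + t) =
        cm l k.radical M ρ δ (cq (s' * k) η M x₀) x) ∧
    (∀ η : 𝓞 K ⧸ (s' * k) → ℂ, MC η → ∀ z ∈ Mz K (e * f),
      ∀ t ∈ (((k.radical ⊓ k') * s' : Ideal (𝓞 K)) : FI K) * Mz K (e * f),
      PhZ (s' * k) k.radical (e * f) π Y₀ y₂ η (z + t) =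
        PhZ (s' * k) k.radical (e * f) π Y₀ y₂ η z) ∧
    ∃ φ : K → ℂ, (∀ ξ, ‖φ ξ‖ ≤ 1) ∧ ∀ η : 𝓞 K ⧸ (s' * k) → ℂ, MC η → ∀ X X₂ : Finset K,
      Rep K (l * ((k.radical ⊓ k') * s')) M X →
      Rep K ((k.radical ⊓ k') * s') (Mz K (e * f)) X₂ →
      ∀ ξ ∈ du K (((l * ((k.radical ⊓ k') * s') : Ideal (𝓞 K)) : FI K) * M),
        ft K X (cm l k.radical M ρ δ (cq (s' * k) η M x₀)) ξ =
          φ ξ * ft K X₂ (PhZ (s' * k) k.radical (e * f) π Y₀ y₂ η) (δ * ξ)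

open scoped Classical in
/-- (CC) the correlations of the functions `PhZ`. -/
def F_CC : Prop :=
  ∀ n : ℕ, 0 < n → ∃ C : ℝ, 1 ≤ C ∧ ∀ (K : Type) [Field K] [NumberField K],
    Module.finrank ℚ K = n → ∀ (s' s₃ s'' k κ₀ e k' f : Ideal (𝓞 K)) (θ : 𝓞 K ⧸ k → ℂ)
    (ι : Type) (I : Finset ι) (η : ι → 𝓞 K ⧸ (s' * k) → ℂ) (γ : ι → 𝓞 K) (π Y₀ : 𝓞 K)
    (y₂ : K) (X₂ : Finset K), s' ≠ ⊥ → k ≠ ⊥ → f ≠ ⊥ → s'.radical = s' → s' ⊔ k = ⊤ →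
    Ideal.span {(210 : 𝓞 K)} ⊔ s' * k = ⊤ → s' = s₃ * s'' → k ≤ κ₀ → κ₀ ≤ k.radical →
    κ₀ ^ 6 ≤ k → FN s' k κ₀ θ I η γ → k = e * k' → e ≤ κ₀ →
    PY (s' * k) e (s' * k') π y₂ → Gn (s' * k) (Mz K (e * f)) y₂ → f ⊔ s' * k = ⊤ →
    Rep K ((k.radical ⊓ k') * s') (Mz K (e * f)) X₂ →
    (∀ i ∈ I, ∀ j ∈ I, γ i - γ j ∈ s'' ∧
      Nf K k' ≤ Nf K e ^ 2 * Nf K (k' ⊔ Ideal.span {γ i - γ j})) →
    (∀ η₀ : 𝓞 K ⧸ (s' * k) → ℂ, MC η₀ → ∀ z ∈ Mz K (e * f),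
      ∀ t ∈ (((k.radical ⊓ k') * s' : Ideal (𝓞 K)) : FI K) * Mz K (e * f),
      PhZ (s' * k) k.radical (e * f) π Y₀ y₂ η₀ (z + t) =
        PhZ (s' * k) k.radical (e * f) π Y₀ y₂ η₀ z) →
    CO ((k.radical ⊓ k') * s') (e * f) I (fun i ν =>
      ft K X₂ (PhZ (s' * k) k.radical (e * f) π Y₀ y₂ (η i)) ν /
        ((Real.sqrt (Nf K (s' * k')) : ℝ) : ℂ)) (ww k.radical k' s₃ γ)
      (Nf K k.radical * (dvs K s').card ^ 2) (Nf K k.radical ^ 2 / Nf K (s' * k'))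
      (C * ((dvs K s').card ^ 3 * Nf K k.radical * Nf K (e * f) *
        (Nf K e * Real.sqrt (Nf K s₃)) / Nf K (s' * k')))

open scoped Classical in
/-- (DC) the decomposition of the half differences. -/
def F_DC : Prop :=
  ∀ n : ℕ, 0 < n → ∃ C : ℝ, 1 ≤ C ∧ ∀ (K : Type) [Field K] [NumberField K],
    Module.finrank ℚ K = n → ∀ (l s k κ b κ₃ b₃ : Ideal (𝓞 K)) (Y : ℝ) (θ : 𝓞 K ⧸ k → ℂ)
    (M : FI K) (x₀ ρ : K) (ι : Type) (J : Finset ι) (η : ι → 𝓞 K ⧸ (s * k) → ℂ)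
    (γ : ι → 𝓞 K), SK l s k Y → FP l (s * k) M x₀ → Cn s k κ b κ₃ b₃ Y →
    FN s k (κ ⊔ k) θ J η γ → ρ ∈ M →
    ∃ (N : ℕ) (cl : K → ℕ), (N : ℝ) ≤ (dvs K (s * k)).card * Nf K k.radical ∧
      (∀ δ, cl δ < N) ∧ ∀ t < N, ∃ (e k' se s' : Ideal (𝓞 K)) (ρg : Ideal (𝓞 K) → K)
        (μ : Ideal (𝓞 K) → ℂ) (qg Eg : Ideal (𝓞 K) → ι → K → ℂ), k = e * k' ∧
        s = se * s' ∧ e ≤ κ ⊔ k ∧ se ≤ κ ⊔ s ∧
        (∀ g f : Ideal (𝓞 K), se = g * f → ρg g ∈ (g : FI K) * M ∧ ‖μ g‖ ≤ 1 ∧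
          FT l k.radical ((k.radical ⊓ k') * s') (e * f) ((g : FI K) * M) (ρg g)
            {δ | δ ≠ 0 ∧ 2 * δ ∈ ((l * κ : Ideal (𝓞 K)) : FI K) * M ∧ cl δ = t} J (qg g)
            (Eg g) (Real.sqrt (Nf K (s' * k'))) ∧
          ∀ I ⊆ J, (∀ i ∈ I, ∀ j ∈ I, γ i - γ j ∈ b₃) →
            CO ((k.radical ⊓ k') * s') (e * f) I (Eg g) (ww k.radical k' (s' ⊔ κ₃) γ)
              (Nf K k.radical * (dvs K s).card ^ 2) (Nf K k.radical ^ 2 / Nf K (s' * k'))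
              (C * ((dvs K s).card ^ 3 * Nf K k.radical * Nf K (e * f) *
                (Nf K e * Nf K se * Y) / Nf K (s' * k')))) ∧
        ∀ δ : K, δ ≠ 0 → 2 * δ ∈ ((l * κ : Ideal (𝓞 K)) : FI K) * M → cl δ = t →
          2 * δ ∈ ((l * se : Ideal (𝓞 K)) : FI K) * M ∧ ∀ u ∈ M, ∀ j ∈ J,
          cm l k.radical M ρ δ (cq (s * k) (η j) M x₀) u =
            ∑ g ∈ dvs K se, μ g * (if u ∈ (g : FI K) * M then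
              cm l k.radical ((g : FI K) * M) (ρg g) δ (qg g j) u else 0)

/-! ### The orthogonality of the characters -/

open scoped Classical in
/-- (BE) Bessel's inequality for the characters in a coset. -/
def F_BE : Prop :=
  ∀ (K : Type) [Field K] [NumberField K] (q κ : Ideal (𝓞 K)) (M : FI K) (x₀ : K)
    (H : Finset (𝓞 K ⧸ q → ℂ)) (η₀ : 𝓞 K ⧸ q → ℂ) (X : Finset K) (a : K → ℂ), q ≠ ⊥ → q ≤ κ →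
    M ≠ 0 → Gn q M x₀ → MC η₀ → (∀ η ∈ H, MC η) →
    (∀ η ∈ H, ∀ j ∈ κ, η (Ideal.Quotient.mk q (1 + j)) = η₀ (Ideal.Quotient.mk q (1 + j))) →
    (∀ x ∈ X, x ∈ M) →
    ∑ η ∈ H, ‖∑ x ∈ X, cq q η M x₀ x * a x‖ ^ 2 ≤
      Nf K κ * (∑ x ∈ X, ∑ x' ∈ X, if x - x' ∈ (κ : FI K) * M then
        cq q η₀ M x₀ x * (starRingEnd ℂ) (cq q η₀ M x₀ x') *
          (a x * (starRingEnd ℂ) (a x')) else 0).re

end Pool.Agent.H23.DF
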